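import Mathlib

/-!
# Dependent random choice
-/

set_option autoImplicit false

open Finset

namespace Pool.Agent.EOF76

variable {ω V : Type} [DecidableEq ω] [Fintype V] [DecidableEq V]

private theorem Drc_count (t : ℕ) (Y : Finset V) :
    (univ.filter fun x : Fin t → V => ∀ i, x i ∈ Y).card = Y.card ^ t := by
  have h1 : (univ.filter fun x : Fin t → V => ∀ i, x i ∈ Y) =
      Fintype.piFinset fun _ : Fin t => Y := by
    ext x
    simp [Fintype.mem_piFinset]
  rw [h1, Fintype.card_piFinset, prod_const, card_univ, Fintype.card_fin]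

theorem drc_fun (𝒲 : Finset ω) (X : ω → Finset V) {b c n t P : ℕ}
    (hb : ∀ w ∈ 𝒲, b ≤ (X w).card)
    (hlt : n * Fintype.card V ^ t + 𝒲.card * (𝒲.card ^ P * c ^ t) < 𝒲.card * b ^ t) :
    ∃ U ⊆ 𝒲, n ≤ U.card ∧ ∀ τ : Fin P → ω, (∀ i, τ i ∈ U) →
      c ≤ (univ.filter fun v => ∀ i, v ∈ X (τ i)).card := by
  by_contra hcon
  push Not at hcon
  set U : (Fin t → V) → Finset ω := fun x => 𝒲.filter fun w => ∀ i, x i ∈ X w with hU
  set T : Finset (Fin P → ω) := (Fintype.piFinset fun _ : Fin P => 𝒲).filter fun τ =>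
    (univ.filter fun v => ∀ i, v ∈ X (τ i)).card < c with hT
  have hS : ∑ x, (U x).card = ∑ w ∈ 𝒲, (X w).card ^ t := by
    simp only [hU, card_filter]
    rw [sum_comm]
    refine sum_congr rfl fun w _ => ?_
    rw [← card_filter, Drc_count]
  have h1 : 𝒲.card * b ^ t ≤ ∑ x, (U x).card := by
    rw [hS, ← smul_eq_mul, ← sum_const]
    exact sum_le_sum fun w hw => Nat.pow_le_pow_left (hb w hw) t
  have h2 : ∀ x, (U x).card ≤ n + 𝒲.card * (T.filter fun τ => ∀ j, τ j ∈ U x).card := by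
    intro x
    by_cases hn : n ≤ (U x).card
    · obtain ⟨τ, hτ, hc⟩ := hcon (U x) (filter_subset _ _) hn
      have h3 : 1 ≤ (T.filter fun τ => ∀ j, τ j ∈ U x).card := by
        refine card_pos.2 ⟨τ, ?_⟩
        rw [mem_filter, hT, mem_filter, Fintype.mem_piFinset]
        exact ⟨⟨fun i => (mem_filter.1 (hτ i)).1, hc⟩, hτ⟩
      have h4 : (U x).card ≤ 𝒲.card := card_le_card (filter_subset _ _)
      have h5 := Nat.mul_le_mul_left 𝒲.card h3
      omega
    · omega
  have h3 : ∑ x, (T.filter fun τ => ∀ j, τ j ∈ U x).card ≤ 𝒲.card ^ P * c ^ t := by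
    have h4 : ∑ x, (T.filter fun τ => ∀ j, τ j ∈ U x).card =
        ∑ τ ∈ T, (univ.filter fun x => ∀ j, τ j ∈ U x).card := by
      simp only [card_filter]
      rw [sum_comm]
    rw [h4]
    have h5 : ∀ τ ∈ T, (univ.filter fun x => ∀ j, τ j ∈ U x).card ≤ c ^ t := by
      intro τ hτ
      rw [hT, mem_filter] at hτ
      calc (univ.filter fun x => ∀ j, τ j ∈ U x).card
          ≤ (univ.filter fun x : Fin t → V =>
            ∀ i, x i ∈ (univ.filter fun v => ∀ j, v ∈ X (τ j))).card := by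
            refine card_le_card fun x hx => ?_
            rw [mem_filter] at hx ⊢
            refine ⟨mem_univ _, fun i => ?_⟩
            rw [mem_filter]
            exact ⟨mem_univ _, fun j => (mem_filter.1 (hx.2 j)).2 i⟩
        _ = (univ.filter fun v => ∀ j, v ∈ X (τ j)).card ^ t := Drc_count _ _
        _ ≤ c ^ t := Nat.pow_le_pow_left hτ.2.le t
    refine (sum_le_sum h5).trans ?_
    rw [sum_const, smul_eq_mul]
    refine Nat.mul_le_mul_right _ ((card_le_card (filter_subset _ _)).trans (le_of_eq ?_))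
    rw [Fintype.card_piFinset, prod_const, card_univ, Fintype.card_fin]
  have h4 : ∑ x, (U x).card ≤ n * Fintype.card V ^ t + 𝒲.card * (𝒲.card ^ P * c ^ t) := by
    refine (sum_le_sum fun x _ => h2 x).trans ?_
    rw [sum_add_distrib, sum_const, card_univ, Fintype.card_fun, Fintype.card_fin, ← mul_sum,
      smul_eq_mul, mul_comm n]
    exact Nat.add_le_add_left (Nat.mul_le_mul_left _ h3) _
  omega

/-- Dependent random choice: a large subset `U` all of whose small subsets have many common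
elements. -/
theorem drc (𝒲 : Finset ω) (X : ω → Finset V) {b c n t P : ℕ} (hcV : c ≤ Fintype.card V)
    (hb : ∀ w ∈ 𝒲, b ≤ (X w).card)
    (hlt : n * Fintype.card V ^ t + 𝒲.card * (𝒲.card ^ P * c ^ t) < 𝒲.card * b ^ t) :
    ∃ U ⊆ 𝒲, n ≤ U.card ∧ ∀ T ⊆ U, T.card ≤ P →
      c ≤ (univ.filter fun v => ∀ w ∈ T, v ∈ X w).card := by
  obtain ⟨U, hU, hn, h⟩ := drc_fun 𝒲 X hb hlt
  refine ⟨U, hU, hn, fun T hT hTP => ?_⟩
  rcases T.eq_empty_or_nonempty with rfl | hne
  · refine hcV.trans (le_of_eq ?_)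
    simp
  · have hpos : 0 < T.card := card_pos.2 hne
    set e := T.equivFin with he
    set τ : Fin P → ω := fun i =>
      (e.symm ⟨min i.1 (T.card - 1), by omega⟩ : ω) with hτ
    have h1 := h τ (fun i => hT (e.symm _).2)
    refine h1.trans (card_le_card fun v hv => ?_)
    rw [mem_filter] at hv ⊢
    refine ⟨mem_univ _, fun w hw => ?_⟩
    have h2 : (e ⟨w, hw⟩).1 < P := lt_of_lt_of_le (e ⟨w, hw⟩).2 hTP
    have h3 := hv.2 ⟨(e ⟨w, hw⟩).1, h2⟩
    have h4 : τ ⟨(e ⟨w, hw⟩).1, h2⟩ = w := by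
      simp only [hτ]
      have h5 : (⟨min (e ⟨w, hw⟩).1 (T.card - 1), by omega⟩ : Fin T.card) = e ⟨w, hw⟩ := by
        apply Fin.ext
        have := (e ⟨w, hw⟩).2
        simp only
        omega
      rw [h5, Equiv.symm_apply_apply]
    rwa [h4] at h3

end Pool.Agent.EOF76
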