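import Mathlib

/-!
# A version of the Friedman-Pippenger argument with roles
-/

set_option autoImplicit false

open Finset

namespace Pool.Agent.EOF76

section step

variable {α β : Type} [DecidableEq α] [DecidableEq β]

/-- One step of the argument. -/
theorem fp_step (Γ : α → Finset β) {G G' : Finset α} (hG' : G' ⊆ G) {a₀ : α} (ha : a₀ ∈ G)
    (ha' : a₀ ∉ G') {U : Finset β} {n : ℕ} (hU : U.card < n)
    (hE : ∀ X ⊆ G, X.card ≤ 2 * n → 2 * X.card ≤ (X.biUnion Γ).card)
    (hI : ∀ X ⊆ G, X.card ≤ 2 * n → X.card ≤ (X.biUnion Γ \ U).card) :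
    ∃ y ∈ Γ a₀ \ U, ∀ X ⊆ G', X.card ≤ 2 * n → X.card ≤ (X.biUnion Γ \ insert y U).card := by
  by_contra hcon
  push Not at hcon
  -- critical sets
  have hcrit : ∀ X ⊆ G, X.card ≤ 2 * n → (X.biUnion Γ \ U).card ≤ X.card → X.card < n := by
    intro X hX hc hle
    have h1 := hE X hX hc
    have h2 : (X.biUnion Γ).card ≤ (X.biUnion Γ \ U).card + U.card :=
      card_le_card_sdiff_add_card
    omega
  have hone : ∀ y ∈ Γ a₀ \ U, ∃ X ⊆ G', X.card < n ∧ (X.biUnion Γ \ U).card ≤ X.card ∧
      y ∈ X.biUnion Γ := by
    intro y hy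
    obtain ⟨X, hX, hc, hlt⟩ := hcon y hy
    have h1 := hI X (hX.trans hG') hc
    have h2 : X.biUnion Γ \ insert y U = (X.biUnion Γ \ U).erase y := by
      ext z
      simp only [mem_sdiff, mem_insert, mem_erase]
      tauto
    rw [h2] at hlt
    have h3 : y ∈ X.biUnion Γ \ U := by
      by_contra h
      rw [erase_eq_of_notMem h] at hlt
      omega
    rw [card_erase_of_mem h3] at hlt
    have h4 : (X.biUnion Γ \ U).card ≤ X.card := by omega
    exact ⟨X, hX, hcrit X (hX.trans hG') hc h4, h4, (mem_sdiff.1 h3).1⟩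
  have hall : ∀ Y ⊆ Γ a₀ \ U, ∃ X ⊆ G', X.card < n ∧ (X.biUnion Γ \ U).card ≤ X.card ∧
      Y ⊆ X.biUnion Γ := by
    intro Y
    induction Y using Finset.induction_on with
    | empty =>
      intro _
      exact ⟨∅, empty_subset _, by rw [card_empty]; omega, by simp, empty_subset _⟩
    | insert y Y hy ih =>
      intro hY
      obtain ⟨X₁, h1, h2, h3, h4⟩ := ih ((subset_insert _ _).trans hY)
      obtain ⟨X₂, k1, k2, k3, k4⟩ := hone y (hY (mem_insert_self _ _))
      have hsub : X₁ ∪ X₂ ⊆ G' := union_subset h1 k1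
      have hcu : (X₁ ∪ X₂).card + (X₁ ∩ X₂).card = X₁.card + X₂.card :=
        card_union_add_card_inter _ _
      have hle : (X₁ ∪ X₂).card ≤ 2 * n := by omega
      have hi := hI (X₁ ∩ X₂) ((inter_subset_left.trans h1).trans hG') (by
        have := card_le_card (inter_subset_left : X₁ ∩ X₂ ⊆ X₁)
        omega)
      have hsm : ((X₁ ∪ X₂).biUnion Γ \ U).card + ((X₁ ∩ X₂).biUnion Γ \ U).card ≤
          (X₁.biUnion Γ \ U).card + (X₂.biUnion Γ \ U).card := by
        have e1 : (X₁ ∪ X₂).biUnion Γ \ U = (X₁.biUnion Γ \ U) ∪ (X₂.biUnion Γ \ U) := by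
          rw [union_biUnion, union_sdiff_distrib]
        have e2 : (X₁ ∩ X₂).biUnion Γ \ U ⊆ (X₁.biUnion Γ \ U) ∩ (X₂.biUnion Γ \ U) := by
          intro z hz
          simp only [mem_sdiff, mem_biUnion, mem_inter] at hz ⊢
          obtain ⟨⟨a, ⟨ha1, ha2⟩, hza⟩, hzU⟩ := hz
          exact ⟨⟨⟨a, ha1, hza⟩, hzU⟩, ⟨⟨a, ha2, hza⟩, hzU⟩⟩
        rw [e1, ← card_union_add_card_inter (X₁.biUnion Γ \ U) (X₂.biUnion Γ \ U)]
        exact Nat.add_le_add_left (card_le_card e2) _
      have hc4 : ((X₁ ∪ X₂).biUnion Γ \ U).card ≤ (X₁ ∪ X₂).card := by omega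
      refine ⟨X₁ ∪ X₂, hsub, hcrit _ (hsub.trans hG') hle hc4, hc4, ?_⟩
      intro z hz
      rw [mem_insert] at hz
      rw [union_biUnion, mem_union]
      rcases hz with rfl | hz
      · exact Or.inr k4
      · exact Or.inl (h4 hz)
  obtain ⟨X, h1, h2, h3, h4⟩ := hall _ (Subset.refl _)
  have haX : a₀ ∉ X := fun h => ha' (h1 h)
  have h5 := hI (insert a₀ X) (by
    intro z hz
    rcases mem_insert.1 hz with rfl | hz
    · exact ha
    · exact hG' (h1 hz)) (by rw [card_insert_of_notMem haX]; omega)
  rw [card_insert_of_notMem haX] at h5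
  have h6 : (insert a₀ X).biUnion Γ \ U ⊆ X.biUnion Γ \ U := by
    intro z hz
    rw [biUnion_insert, mem_sdiff, mem_union] at hz
    rw [mem_sdiff]
    refine ⟨?_, hz.2⟩
    rcases hz.1 with h | h
    · exact h4 (mem_sdiff.2 ⟨h, hz.2⟩)
    · exact h
  have h7 := card_le_card h6
  omega

end step

section main

variable {ι β : Type} [Fintype ι] [DecidableEq ι] [Fintype β] [DecidableEq β]

/-- The pairs (image of the parent, role) which are allowed. -/
def Allowed (par : ι → Option ι) (A : ι → Finset β) (a : Option β × ι) : Prop :=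
  (par a.2 = none ∧ a.1 = none) ∨ ∃ p, par a.2 = some p ∧ ∃ y ∈ A p, a.1 = some y

theorem fp_main (par : ι → Option ι) (dep : ι → ℕ)
    (hdep : ∀ c p, par c = some p → dep p < dep c) (A : ι → Finset β)
    (Γ : Option β × ι → Finset β)
    (hΓ : ∀ a, Allowed par A a → Γ a ⊆ A a.2)
    (hE : ∀ X : Finset (Option β × ι), (∀ a ∈ X, Allowed par A a) →
      X.card ≤ 2 * Fintype.card ι → 2 * X.card ≤ (X.biUnion Γ).card) :
    ∃ f : ι → β, Function.Injective f ∧ ∀ c, f c ∈ Γ ((par c).map f, c) := by
  classical
  by_cases hne : Nonempty ι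
  swap
  · exact ⟨fun c => absurd ⟨c⟩ hne, fun c => absurd ⟨c⟩ hne, fun c => absurd ⟨c⟩ hne⟩
  obtain ⟨c₀⟩ := hne
  set n := Fintype.card ι with hn
  have hn0 : 0 < n := Fintype.card_pos_iff.2 ⟨c₀⟩
  set Gr : Finset ι → Finset (Option β × ι) := fun S =>
    univ.filter fun a => Allowed par A a ∧ a.2 ∉ S with hGr
  -- a nonempty target
  have key : ∀ k ≤ n, ∃ (S : Finset ι) (f : ι → β), S.card = k ∧
      (∀ c ∈ S, ∀ p, par c = some p → p ∈ S) ∧ Set.InjOn f (S : Set ι) ∧
      (∀ c ∈ S, f c ∈ A c ∧ f c ∈ Γ ((par c).map f, c)) ∧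
      ∀ X ⊆ Gr S, X.card ≤ 2 * n → X.card ≤ (X.biUnion Γ \ S.image f).card := by
    intro k
    induction k with
    | zero =>
      intro _
      have hβ : Nonempty β := by
        obtain ⟨r, hr⟩ : ∃ r, par r = none := by
          obtain ⟨r, -, hr⟩ := exists_min_image univ dep ⟨c₀, mem_univ _⟩
          refine ⟨r, ?_⟩
          by_contra h
          obtain ⟨p, hp⟩ := Option.ne_none_iff_exists'.1 h
          have := hr p (mem_univ _)
          have := hdep r p hp
          omega
        have h1 := hE {(none, r)} (by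
          intro a ha
          rw [mem_singleton] at ha
          subst ha
          exact Or.inl ⟨hr, rfl⟩) (by rw [card_singleton]; omega)
        rw [card_singleton] at h1
        have h2 : 0 < ((({(none, r)} : Finset (Option β × ι))).biUnion Γ).card := by omega
        obtain ⟨y, -⟩ := card_pos.1 h2
        exact ⟨y⟩
      obtain ⟨y₀⟩ := hβ
      refine ⟨∅, fun _ => y₀, card_empty, by simp, by simp, by simp, ?_⟩
      intro X hX hc
      have h1 := hE X (fun a ha => (mem_filter.1 (hX ha)).2.1) hc
      rw [image_empty, sdiff_empty]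
      omega
    | succ k ih =>
      intro hk
      obtain ⟨S, f, hS, hpar, hinj, hf, hI⟩ := ih (by omega)
      have hne' : (univ.filter fun c => c ∉ S).Nonempty := by
        by_contra h
        rw [not_nonempty_iff_eq_empty, filter_eq_empty_iff] at h
        have h1 : (univ : Finset ι) ⊆ S := fun c hc => not_not.1 (h hc)
        have h2 := card_le_card h1
        rw [card_univ] at h2
        omega
      obtain ⟨c, hc, hmin⟩ := exists_min_image _ dep hne'
      have hcS : c ∉ S := (mem_filter.1 hc).2
      have hpc : ∀ p, par c = some p → p ∈ S := by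
        intro p hp
        by_contra h
        have h1 := hmin p (mem_filter.2 ⟨mem_univ _, h⟩)
        have h2 := hdep c p hp
        omega
      have hall : Allowed par A ((par c).map f, c) := by
        rcases hpc' : par c with _ | p
        · exact Or.inl ⟨hpc', rfl⟩
        · exact Or.inr ⟨p, hpc', f p, (hf p (hpc p hpc')).1, rfl⟩
      have hUc : (S.image f).card < n := by
        rw [card_image_of_injOn hinj, hS]
        omega
      obtain ⟨y, hy, hy'⟩ := fp_step Γ (G := Gr S) (G' := Gr (insert c S))
        (a₀ := ((par c).map f, c)) (by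
          intro a ha
          rw [hGr, mem_filter] at ha ⊢
          exact ⟨mem_univ _, ha.2.1, fun h => ha.2.2 (mem_insert_of_mem h)⟩)
        (by
          rw [hGr, mem_filter]
          exact ⟨mem_univ _, hall, hcS⟩)
        (by
          rw [hGr, mem_filter]
          exact fun h => h.2.2 (mem_insert_self _ _)) hUc
        (fun X hX hXc => hE X (fun a ha => (mem_filter.1 (hX ha)).2.1) hXc) hI
      rw [mem_sdiff] at hy
      have hold : ∀ x ∈ S, Function.update f c y x = f x := by
        intro x hx
        rw [Function.update_of_ne]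
        rintro rfl
        exact hcS hx
      have hnew : Function.update f c y c = y := Function.update_self _ _ _
      have hmap : ∀ x ∈ insert c S, (par x).map (Function.update f c y) = (par x).map f := by
        intro x hx
        rcases hpx : par x with _ | p
        · rfl
        · have hpS : p ∈ S := by
            rcases mem_insert.1 hx with rfl | hx
            · exact hpc p hpx
            · exact hpar x hx p hpx
          simp only [Option.map_some]
          rw [hold p hpS]
      refine ⟨insert c S, Function.update f c y, ?_, ?_, ?_, ?_, ?_⟩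
      · rw [card_insert_of_notMem hcS, hS]
      · intro x hx p hp
        rcases mem_insert.1 hx with rfl | hx
        · exact mem_insert_of_mem (hpc p hp)
        · exact mem_insert_of_mem (hpar x hx p hp)
      · intro x hx z hz hxz
        rw [mem_coe, mem_insert] at hx hz
        rcases hx with rfl | hx <;> rcases hz with rfl | hz
        · rfl
        · rw [hnew, hold z hz] at hxz
          exact absurd (hxz ▸ mem_image_of_mem f hz) hy.2
        · rw [hnew, hold x hx] at hxz
          exact absurd (hxz ▸ mem_image_of_mem f hx) hy.2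
        · rw [hold x hx, hold z hz] at hxz
          exact hinj hx hz hxz
      · intro x hx
        rw [hmap x hx]
        rcases mem_insert.1 hx with rfl | hx
        · rw [hnew]
          exact ⟨hΓ _ hall hy.1, hy.1⟩
        · rw [hold x hx]
          exact hf x hx
      · intro X hX hXc
        have h1 : (insert c S).image (Function.update f c y) = insert y (S.image f) := by
          rw [image_insert, hnew]
          congr 1
          exact image_congr fun x hx => hold x hx
        rw [h1]
        exact hy' X hX hXc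
  obtain ⟨S, f, hS, -, hinj, hf, -⟩ := key n le_rfl
  have hSu : S = univ := by
    rw [← card_eq_iff_eq_univ, hS]
  subst hSu
  refine ⟨f, ?_, fun c => (hf c (mem_univ _)).2⟩
  intro x z hxz
  exact hinj (mem_coe.2 (mem_univ _)) (mem_coe.2 (mem_univ _)) hxz

end main

end Pool.Agent.EOF76
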