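import Pool.Agent.EOF76.Windows
import Pool.Agent.EOF76.RoleFP

/-!
# The embedding of a rooted forest
-/

set_option autoImplicit false

open Finset

namespace Pool.Agent.EOF76

variable {N K : ℕ} {W : Fin N → Fin N → Fin K} {χ : Fin N → Fin N → Bool} {m d x₀ : ℕ}

variable {ι : Type} [Fintype ι] [DecidableEq ι]

/-- The images which are possible for a role, given the image of the parent. -/
def Gam (W : Fin N → Fin N → Fin K) (χ : Fin N → Fin N → Bool) (sd : ι → Bool) (wd : ι → Fin K)
    (A : ι → Finset (Fin N)) (col : Bool) (a : Option (Bool × Fin N) × ι) :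
    Finset (Bool × Fin N) :=
  match a.1 with
  | none => (A a.2).image fun y => (sd a.2, y)
  | some q => (nbs W χ q.1 (wd a.2) col q.2 (A a.2)).image fun y => (sd a.2, y)

theorem embed (hH : Host W m d x₀) {par : ι → Option ι} {dep : ι → ℕ}
    (hdep : ∀ c p, par c = some p → dep p < dep c) {sd : ι → Bool}
    (hsd : ∀ c p, par c = some p → sd c = !sd p) {wd : ι → Fin K}
    (hwd : ∀ c c', par c ≠ none → par c' ≠ none → wd c = wd c' → c = c')
    (hx : 2 * Fintype.card ι ≤ x₀) {A : ι → Finset (Fin N)} {col : Bool}
    (hA : ∀ v, 4 * Fintype.card ι ≤ (A v).card)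
    (hL : ∀ v c, par c = some v → ∀ z ∈ A v, d ≤ (nbs W χ (sd v) (wd c) col z (A c)).card) :
    ∃ φ : ι → Fin N, Function.Injective (fun c => (sd c, φ c)) ∧
      ∀ c p, par c = some p → sw W (sd p) (φ p) (φ c) = wd c ∧
        sw χ (sd p) (φ p) (φ c) = col := by
  classical
  have hinj : ∀ (t : Bool), Function.Injective (fun y : Fin N => (t, y)) := by
    intro t y y' h
    exact (Prod.mk.inj h).2
  have hE : ∀ X : Finset (Option (Bool × Fin N) × ι),
      (∀ a ∈ X, Allowed par (fun v => (A v).image fun y => (sd v, y)) a) →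
      X.card ≤ 2 * Fintype.card ι → 2 * X.card ≤ (X.biUnion (Gam W χ sd wd A col)).card := by
    intro X hX hc
    rcases X.eq_empty_or_nonempty with rfl | hne
    · simp
    by_cases hr : ∃ a ∈ X, a.1 = none
    · obtain ⟨⟨o, c⟩, ha, ho⟩ := hr
      simp only at ho
      subst ho
      have h1 : (A c).card ≤ (X.biUnion (Gam W χ sd wd A col)).card := by
        rw [← card_image_of_injective (A c) (hinj (sd c))]
        refine card_le_card ?_
        exact subset_biUnion_of_mem (Gam W χ sd wd A col) ha
      have h2 := hA c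
      omega
    · push Not at hr
      have h1 : ∀ a ∈ X, ∃ p z, par a.2 = some p ∧ z ∈ A p ∧ a.1 = some (sd p, z) := by
        intro a ha
        rcases hX a ha with ⟨-, h⟩ | ⟨p, hp, y, hy, hya⟩
        · exact absurd h (hr a ha)
        · obtain ⟨z, hz, rfl⟩ := mem_image.1 hy
          exact ⟨p, z, hp, hz, hya⟩
      set Xs : Bool → Finset (Option (Bool × Fin N) × ι) := fun s =>
        X.filter fun a => ∃ z, a.1 = some (s, z) with hXs
      have h2 : X ⊆ Xs true ∪ Xs false := by
        intro a ha
        obtain ⟨p, z, hp, hz, hpz⟩ := h1 a ha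
        rw [mem_union, hXs, mem_filter, mem_filter]
        cases hs : sd p
        · rw [hs] at hpz
          exact Or.inr ⟨ha, z, hpz⟩
        · rw [hs] at hpz
          exact Or.inl ⟨ha, z, hpz⟩
      obtain ⟨s, hs⟩ : ∃ s, X.card ≤ 2 * (Xs s).card := by
        have h3 := (card_le_card h2).trans (card_union_le _ _)
        by_cases h4 : (Xs true).card ≤ (Xs false).card
        · exact ⟨false, by omega⟩
        · exact ⟨true, by omega⟩
      have hXne : (Xs s).Nonempty := by
        rw [← card_pos]
        have := card_pos.2 hne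
        omega
      obtain ⟨a₀, ha₀⟩ := hXne
      obtain ⟨z₀, -⟩ := (mem_filter.1 ha₀).2
      set π : Option (Bool × Fin N) × ι → Fin N × Fin K := fun a =>
        ((a.1.map Prod.snd).getD z₀, wd a.2) with hπ
      have hπi : Set.InjOn π (Xs s : Set (Option (Bool × Fin N) × ι)) := by
        intro a ha a' ha' haa
        obtain ⟨hm, z, hz⟩ := mem_filter.1 (mem_coe.1 ha)
        obtain ⟨hm', z', hz'⟩ := mem_filter.1 (mem_coe.1 ha')
        obtain ⟨p, -, hp, -, -⟩ := h1 a hm
        obtain ⟨p', -, hp', -, -⟩ := h1 a' hm'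
        simp only [hπ, Prod.mk.injEq] at haa
        rw [hz, hz'] at haa
        simp only [Option.map_some, Option.getD_some] at haa
        have h4 := hwd a.2 a'.2 (by rw [hp]; exact Option.some_ne_none _)
          (by rw [hp']; exact Option.some_ne_none _) haa.2
        refine Prod.ext ?_ h4
        rw [hz, hz', haa.1]
      by_contra hcon
      rw [not_le] at hcon
      set Zs : Finset (Fin N) := univ.filter fun y =>
        (!s, y) ∈ X.biUnion (Gam W χ sd wd A col) with hZs
      have h4 : Zs.card ≤ (X.biUnion (Gam W χ sd wd A col)).card := by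
        rw [← card_image_of_injective Zs (hinj (!s))]
        refine card_le_card fun q hq => ?_
        obtain ⟨y, hy, rfl⟩ := mem_image.1 hq
        exact (mem_filter.1 hy).2
      have h5 : ((Xs s).image π).card = (Xs s).card := card_image_of_injOn hπi
      obtain ⟨q, hq, hqd⟩ := hH.small s ((Xs s).image π) Zs ⟨_, mem_image_of_mem π ha₀⟩
        (by
          rw [h5]
          have h6 : (Xs s).card ≤ X.card := card_le_card (filter_subset _ _)
          omega)
        (by rw [h5]; omega)
      obtain ⟨a, ha, rfl⟩ := mem_image.1 hq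
      obtain ⟨hm, z, hz⟩ := mem_filter.1 ha
      obtain ⟨p, z', hp, hz', hpz⟩ := h1 a hm
      rw [hz, Option.some.injEq, Prod.mk.injEq] at hpz
      obtain ⟨hsp, hzz⟩ := hpz
      subst hzz
      have h6 := hL p a.2 hp z hz'
      rw [← hsp] at h6
      have h7 : nbs W χ s (wd a.2) col z (A a.2) ⊆ nba W s (π a).2 (π a).1 Zs := by
        intro y hy
        have h8 : (π a).1 = z := by
          simp only [hπ]
          rw [hz]
          rfl
        have h9 : (π a).2 = wd a.2 := rfl
        rw [h8, h9]
        rw [nba, mem_filter]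
        refine ⟨?_, (mem_filter.1 hy).2.1⟩
        rw [hZs, mem_filter]
        refine ⟨mem_univ _, ?_⟩
        rw [mem_biUnion]
        refine ⟨a, hm, ?_⟩
        have h10 : sd a.2 = !s := by rw [hsd a.2 p hp, hsp]
        rw [Gam, hz]
        simp only
        rw [h10]
        exact mem_image_of_mem _ hy
      have h8 := card_le_card h7
      omega
  obtain ⟨f, hf, hfm⟩ := fp_main par dep hdep (fun v => (A v).image fun y => (sd v, y))
    (Gam W χ sd wd A col) (by
      rintro ⟨o, c⟩ -
      rcases o with _ | q
      · exact Subset.refl _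
      · exact image_subset_image (filter_subset _ _)) hE
  have h1 : ∀ c, f c = (sd c, (f c).2) := by
    intro c
    have h2 := hfm c
    rcases hpc : par c with _ | p
    · rw [hpc] at h2
      obtain ⟨y, -, hy⟩ := mem_image.1 h2
      rw [← hy]
    · rw [hpc] at h2
      obtain ⟨y, -, hy⟩ := mem_image.1 h2
      rw [← hy]
  refine ⟨fun c => (f c).2, ?_, ?_⟩
  · intro c c' hcc
    apply hf
    rw [h1 c, h1 c']
    exact hcc
  · intro c p hp
    have h2 := hfm c
    rw [hp, Option.map_some] at h2
    obtain ⟨y, hy, hyc⟩ := mem_image.1 h2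
    have h3 : (f c).2 = y := by rw [← hyc]
    have h4 : (f p).1 = sd p := by rw [h1 p]
    simp only at hy
    rw [h4, ← h3] at hy
    exact (mem_filter.1 hy).2

end Pool.Agent.EOF76
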