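import Mathlib

/-!
# From windows on `K_(N,N)` to an ordering of the edges of `K_(2N)`

`exists_order`: for `W : Fin N → Fin N → Fin K` there is an injective `f` on the edges of the
complete graph on `2 N` vertices such that the edges between the two halves are sorted by `W`.
-/

set_option autoImplicit false

namespace Pool.Agent.EOF76

/-- the first half of the host -/
def inl {N : ℕ} (x : Fin N) : Fin (2 * N) := ⟨x.1, by have := x.2; omega⟩

/-- the second half of the host -/
def inr {N : ℕ} (y : Fin N) : Fin (2 * N) := ⟨N + y.1, by have := y.2; omega⟩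

theorem inl_injective {N : ℕ} : Function.Injective (inl (N := N)) := by
  intro x y h
  exact Fin.ext (Fin.mk.inj h)

theorem inr_injective {N : ℕ} : Function.Injective (inr (N := N)) := by
  intro x y h
  have h1 : N + x.1 = N + y.1 := Fin.mk.inj h
  exact Fin.ext (by omega)

theorem inl_ne_inr {N : ℕ} (x y : Fin N) : inl x ≠ inr y := by
  intro h
  have h1 : x.1 = N + y.1 := Fin.mk.inj h
  have := x.2
  omega

theorem pair_inj {N : ℕ} {x y x' y' : Fin N} (h : s(inl x, inr y) = s(inl x', inr y')) :
    x = x' ∧ y = y' := by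
  rw [Sym2.eq_iff] at h
  rcases h with ⟨h1, h2⟩ | ⟨h1, _⟩
  · exact ⟨inl_injective h1, inr_injective h2⟩
  · exact absurd h1 (inl_ne_inr _ _)

theorem exists_order {N K : ℕ} (W : Fin N → Fin N → Fin K) :
    ∃ f : Sym2 (Fin (2 * N)) → ℕ, Function.Injective f ∧ ∀ x y x' y' : Fin N,
      W x y < W x' y' → f s(inl x, inr y) < f s(inl x', inr y') := by
  classical
  set c : ℕ := Fintype.card (Sym2 (Fin (2 * N))) with hc
  set E := Fintype.equivFin (Sym2 (Fin (2 * N))) with hE
  set w : Sym2 (Fin (2 * N)) → ℕ := fun e =>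
    if h : ∃ p : Fin N × Fin N, e = s(inl p.1, inr p.2) then (W h.choose.1 h.choose.2).1 else 0
    with hw
  have hwp : ∀ x y : Fin N, w s(inl x, inr y) = (W x y).1 := by
    intro x y
    have h : ∃ p : Fin N × Fin N, s(inl x, inr y) = s(inl p.1, inr p.2) := ⟨(x, y), rfl⟩
    have h1 := pair_inj h.choose_spec
    rw [hw]
    dsimp only
    rw [dif_pos h, ← h1.1, ← h1.2]
  have hlt : ∀ e e' : Sym2 (Fin (2 * N)), w e < w e' →
      w e * c + (E e).1 < w e' * c + (E e').1 := by
    intro e e' h
    have h1 : (E e).1 < c := (E e).2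
    have h3 := Nat.mul_le_mul_right c (show w e + 1 ≤ w e' from h)
    have h4 : (w e + 1) * c = w e * c + c := by ring
    omega
  refine ⟨fun e => w e * c + (E e).1, ?_, ?_⟩
  · intro e e' h
    have h' : w e * c + (E e).1 = w e' * c + (E e').1 := h
    rcases lt_trichotomy (w e) (w e') with h1 | h1 | h1
    · exact absurd h' (hlt e e' h1).ne
    · apply E.injective
      apply Fin.ext
      rw [h1] at h'
      omega
    · exact absurd h'.symm (hlt e' e h1).ne
  · intro x y x' y' h
    refine hlt _ _ ?_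
    rw [hwp, hwp]
    exact h

private theorem castAdd_ne_natAdd {N : ℕ} (x y : Fin N) : Fin.castAdd N x ≠ Fin.natAdd N y := by
  intro h
  have h1 : x.1 = N + y.1 := Fin.mk.inj h
  have := x.2
  omega

private theorem pair_inj_add {N : ℕ} {x y x' y' : Fin N}
    (h : s(Fin.castAdd N x, Fin.natAdd N y) = s(Fin.castAdd N x', Fin.natAdd N y')) :
    x = x' ∧ y = y' := by
  rw [Sym2.eq_iff] at h
  rcases h with ⟨h1, h2⟩ | ⟨h1, _⟩
  · exact ⟨Fin.castAdd_injective N N h1, Fin.natAdd_injective N N h2⟩
  · exact absurd h1 (castAdd_ne_natAdd _ _)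

/-- `exists_order` for the vertex set `Fin (N + N)`, with sides `Fin.castAdd` and `Fin.natAdd` -/
theorem exists_order_add {N K : ℕ} (W : Fin N → Fin N → Fin K) :
    ∃ f : Sym2 (Fin (N + N)) → ℕ, Function.Injective f ∧ ∀ x y x' y' : Fin N,
      W x y < W x' y' →
        f s(Fin.castAdd N x, Fin.natAdd N y) < f s(Fin.castAdd N x', Fin.natAdd N y') := by
  classical
  set c : ℕ := Fintype.card (Sym2 (Fin (N + N))) with hc
  set E := Fintype.equivFin (Sym2 (Fin (N + N))) with hE
  set w : Sym2 (Fin (N + N)) → ℕ := fun e =>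
    if h : ∃ p : Fin N × Fin N, e = s(Fin.castAdd N p.1, Fin.natAdd N p.2) then
      (W h.choose.1 h.choose.2).1 else 0
    with hw
  have hwp : ∀ x y : Fin N, w s(Fin.castAdd N x, Fin.natAdd N y) = (W x y).1 := by
    intro x y
    have h : ∃ p : Fin N × Fin N,
        s(Fin.castAdd N x, Fin.natAdd N y) = s(Fin.castAdd N p.1, Fin.natAdd N p.2) :=
      ⟨(x, y), rfl⟩
    have h1 := pair_inj_add h.choose_spec
    rw [hw]
    dsimp only
    rw [dif_pos h, ← h1.1, ← h1.2]
  have hlt : ∀ e e' : Sym2 (Fin (N + N)), w e < w e' →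
      w e * c + (E e).1 < w e' * c + (E e').1 := by
    intro e e' h
    have h1 : (E e).1 < c := (E e).2
    have h3 := Nat.mul_le_mul_right c (show w e + 1 ≤ w e' from h)
    have h4 : (w e + 1) * c = w e * c + c := by ring
    omega
  refine ⟨fun e => w e * c + (E e).1, ?_, ?_⟩
  · intro e e' h
    have h' : w e * c + (E e).1 = w e' * c + (E e').1 := h
    rcases lt_trichotomy (w e) (w e') with h1 | h1 | h1
    · exact absurd h' (hlt e e' h1).ne
    · apply E.injective
      apply Fin.ext
      rw [h1] at h'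
      omega
    · exact absurd h'.symm (hlt e' e h1).ne
  · intro x y x' y' h
    refine hlt _ _ ?_
    rw [hwp, hwp]
    exact h

end Pool.Agent.EOF76
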