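import Pool.Agent.LarH.ProbPi

/-!
# A random host for edge-ordered forests

`exists_host`: a colouring `W : Fin N → Fin N → Fin K` of the edges of `K_(N,N)` by windows such
that every window has an edge between every two sets of size `m`, and such that for every set `X` of
at most `x0` pairs (vertex, window) and every set `Z` of at most `4 |X|` vertices of the other side
some pair of `X` has fewer than `d` neighbours in its window in `Z`. Union bound.
-/

set_option autoImplicit false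

open Finset Pool.LarProb

namespace Pool.Agent.EOF76

section

variable {N K : ℕ}

/-- the uniform weight on the windows functions -/
private noncomputable def pw (N K : ℕ) : (Fin N × Fin N → Fin K) → ℝ :=
  PW (I := Fin N × Fin N) (A := fun _ => Fin K) (fun _ => unif (Fin K))

private theorem unifK (hK : 0 < K) : IsP (unif (Fin K)) := by
  have : Nonempty (Fin K) := ⟨⟨0, hK⟩⟩
  exact unif_isP

private theorem pw_isP (hK : 0 < K) : IsP (pw N K) := PW_isP fun _ => unifK hK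

private theorem Pr_eq_unif (hK : 0 < K) (w : Fin K) :
    Pr (unif (Fin K)) (fun a => a = w) = 1 / (K : ℝ) := by
  have _ := hK
  unfold Pr Ex
  rw [Finset.sum_eq_single w]
  · show unif (Fin K) w * ind (w = w) = _
    rw [ind_true rfl, mul_one]
    unfold unif
    rw [Fintype.card_fin]
  · intro a _ ha
    show unif (Fin K) a * ind (a = w) = _
    rw [ind_false ha, mul_zero]
  · intro h
    exact absurd (Finset.mem_univ _) h

/-! ### the joining property -/

private theorem Pr_join (hK : 0 < K) {m : ℕ} (hm : 4 * K * N ≤ m ^ 2) (w : Fin K)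
    (A B : Finset (Fin N)) (hA : A.card = m) (hB : B.card = m) :
    Pr (pw N K) (fun ω => ∀ c ∈ A ×ˢ B, ω c ≠ w) ≤ (1 / 32 : ℝ) ^ N := by
  have hK0 : (0 : ℝ) < K := by exact_mod_cast hK
  have h1 : Pr (pw N K) (fun ω => ∀ c ∈ A ×ˢ B, ω c ≠ w) ≤ (1 - 1 / (K : ℝ)) ^ (A ×ˢ B).card := by
    refine Pr_forall_le (fun _ => unifK hK) (A ×ˢ B) (fun _ a => a ≠ w) ?_
    intro c _
    have h2 : Pr (unif (Fin K)) (fun a => a ≠ w) = 1 - Pr (unif (Fin K)) (fun a => a = w) :=
      Pr_not (unifK hK) _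
    rw [h2, Pr_eq_unif hK]
  refine h1.trans ?_
  rw [card_product, hA, hB]
  have h3 : 0 ≤ 1 - 1 / (K : ℝ) := by
    rw [sub_nonneg, div_le_one hK0]
    exact_mod_cast hK
  have h4 : 1 - 1 / (K : ℝ) ≤ Real.exp (-(1 / (K : ℝ))) := Real.one_sub_le_exp_neg _
  have h5 : (1 - 1 / (K : ℝ)) ^ (m * m) ≤ Real.exp (-(1 / (K : ℝ))) ^ (m * m) :=
    pow_le_pow_left₀ h3 h4 _
  refine h5.trans ?_
  rw [← Real.exp_nat_mul]
  have h6 : ((m * m : ℕ) : ℝ) * -(1 / (K : ℝ)) ≤ (N : ℝ) * (-4) := by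
    have h7 : (4 : ℝ) * K * N ≤ (m : ℝ) ^ 2 := by exact_mod_cast hm
    push_cast
    rw [mul_neg, mul_neg, neg_le_neg_iff, mul_one_div, le_div_iff₀ hK0]
    nlinarith
  refine (Real.exp_le_exp.2 h6).trans ?_
  rw [Real.exp_nat_mul]
  refine pow_le_pow_left₀ (Real.exp_pos _).le ?_ _
  have h8 : (32 : ℝ) ≤ Real.exp 4 := by
    have h9 : Real.exp 4 = Real.exp 1 ^ 4 := by
      rw [← Real.exp_nat_mul]
      norm_num
    have h10 : (2.7 : ℝ) ≤ Real.exp 1 := by
      have := Real.exp_one_gt_d9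
      linarith
    rw [h9]
    calc (32 : ℝ) ≤ 2.7 ^ 4 := by norm_num
      _ ≤ Real.exp 1 ^ 4 := pow_le_pow_left₀ (by norm_num) h10 _
  rw [Real.exp_neg, one_div]
  exact inv_anti₀ (by norm_num) h8

private theorem Pr_join_all (hN : 0 < N) (hK : 0 < K) (hKN : K ≤ N) {m : ℕ}
    (hm : 4 * K * N ≤ m ^ 2) :
    Pr (pw N K) (fun ω => ∃ j ∈ (univ : Finset (Fin K)) ×ˢ (powersetCard m univ ×ˢ
      powersetCard m univ : Finset (Finset (Fin N) × Finset (Fin N))),
      ∀ c ∈ j.2.1 ×ˢ j.2.2, ω c ≠ j.1) ≤ 1 / 4 := by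
  refine (Pr_exists_le_card_mul (pw_isP hK) _ _ (q := (1 / 32 : ℝ) ^ N) ?_).trans ?_
  · rintro ⟨w, A, B⟩ hj
    rw [mem_product, mem_product, mem_powersetCard, mem_powersetCard] at hj
    exact Pr_join hK hm w A B hj.2.1.2 hj.2.2.2
  · rw [card_product, card_product, card_powersetCard, card_univ, card_univ, Fintype.card_fin,
      Fintype.card_fin]
    have h1 : N.choose m ≤ 2 ^ N := Nat.choose_le_two_pow N m
    have h2 : K * (N.choose m * N.choose m) ≤ 2 ^ N * (2 ^ N * 2 ^ N) :=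
      Nat.mul_le_mul (hKN.trans Nat.lt_two_pow_self.le) (Nat.mul_le_mul h1 h1)
    have h3 : ((K * (N.choose m * N.choose m) : ℕ) : ℝ) ≤ (8 : ℝ) ^ N := by
      have h4 : (8 : ℝ) ^ N = ((2 ^ N * (2 ^ N * 2 ^ N) : ℕ) : ℝ) := by
        push_cast
        rw [← mul_pow, ← mul_pow]
        norm_num
      rw [h4]
      exact_mod_cast h2
    calc ((K * (N.choose m * N.choose m) : ℕ) : ℝ) * (1 / 32 : ℝ) ^ N
        ≤ (8 : ℝ) ^ N * (1 / 32 : ℝ) ^ N := by gcongr
      _ = (1 / 4 : ℝ) ^ N := by rw [← mul_pow]; norm_num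
      _ ≤ (1 / 4 : ℝ) ^ 1 := pow_le_pow_of_le_one (by norm_num) (by norm_num) hN
      _ = 1 / 4 := pow_one _

/-! ### expansion of pairs -/

private theorem card_bound (ω : Fin N × Fin N → Fin K) (X : Finset (Fin N × Fin K))
    (Z : Finset (Fin N)) {d : ℕ}
    (h : ∀ p ∈ X, d ≤ (Z.filter fun z => ω (p.1, z) = p.2).card) :
    X.card * d ≤ (((univ : Finset (Fin N)) ×ˢ Z).filter fun c => (c.1, ω c) ∈ X).card := by
  have h1 : X.card * d ≤ ∑ p ∈ X, (Z.filter fun z => ω (p.1, z) = p.2).card := by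
    rw [← smul_eq_mul]
    exact card_nsmul_le_sum _ _ _ h
  refine h1.trans ?_
  have h2 : ∑ p ∈ X, (Z.filter fun z => ω (p.1, z) = p.2).card =
      ((X ×ˢ Z).filter fun t => ω (t.1.1, t.2) = t.1.2).card := by
    rw [card_filter, sum_product]
    refine sum_congr rfl fun p _ => ?_
    rw [card_filter]
  rw [h2]
  refine card_le_card_of_injOn (fun t => (t.1.1, t.2)) ?_ ?_
  · intro t ht
    have ht' := mem_filter.1 (mem_coe.1 ht)
    rw [mem_product] at ht'
    refine mem_coe.2 (mem_filter.2 ⟨mem_product.2 ⟨mem_univ _, ht'.1.2⟩, ?_⟩)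
    show (t.1.1, ω (t.1.1, t.2)) ∈ X
    rw [ht'.2]
    exact ht'.1.1
  · intro t ht t' ht' he
    have h3 := (mem_filter.1 (mem_coe.1 ht)).2
    have h4 := (mem_filter.1 (mem_coe.1 ht')).2
    have h5 : t.1.1 = t'.1.1 ∧ t.2 = t'.2 := Prod.mk.inj he
    refine Prod.ext (Prod.ext h5.1 ?_) h5.2
    rw [← h3, ← h4, h5.1, h5.2]

private theorem Ex_two (hK : 0 < K) (X : Finset (Fin N × Fin K)) (a : Fin N) :
    Ex (unif (Fin K)) (fun b => if (a, b) ∈ X then (2 : ℝ) else 1) ≤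
      Real.exp ((univ.filter fun b : Fin K => (a, b) ∈ X).card / (K : ℝ)) := by
  have hK0 : (0 : ℝ) < K := by exact_mod_cast hK
  have h1 : Ex (unif (Fin K)) (fun b => if (a, b) ∈ X then (2 : ℝ) else 1) =
      (univ.filter fun b : Fin K => (a, b) ∈ X).card / (K : ℝ) + 1 := by
    have h2 : ∀ b : Fin K, (if (a, b) ∈ X then (2 : ℝ) else 1) =
        (if (a, b) ∈ X then (1 : ℝ) else 0) + 1 := by
      intro b
      split_ifs <;> norm_num
    rw [Ex_congr h2, Ex_add, Ex_const (unifK hK)]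
    congr 1
    unfold Ex unif
    rw [← mul_sum, card_filter, Fintype.card_fin]
    push_cast
    ring
  rw [h1]
  exact Real.add_one_le_exp _

private theorem Pr_exp (hK : 0 < K) {x0 d : ℕ} (hx : 8 * x0 ≤ K) (X : Finset (Fin N × Fin K))
    (Z : Finset (Fin N)) (hX : X.card ≤ x0) (hZ : Z.card ≤ 4 * X.card) :
    Pr (pw N K) (fun ω => ∀ p ∈ X, d ≤ (Z.filter fun z => ω (p.1, z) = p.2).card) ≤
      (2 / 2 ^ d : ℝ) ^ X.card := by
  classical
  have hK0 : (0 : ℝ) < K := by exact_mod_cast hK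
  set s : Finset (Fin N × Fin N) := univ ×ˢ Z with hs
  set g : Fin N × Fin N → Fin K → ℝ := fun c b => if (c.1, b) ∈ X then 2 else 1 with hg
  set G : (Fin N × Fin N → Fin K) → ℝ := fun ω => ∏ c ∈ s, g c (ω c) with hG
  have hG0 : ∀ ω, 0 ≤ G ω := by
    intro ω
    refine prod_nonneg fun c _ => ?_
    rw [hg]
    dsimp only
    split_ifs <;> norm_num
  have hGe : ∀ ω, G ω = 2 ^ (s.filter fun c => (c.1, ω c) ∈ X).card := by
    intro ω
    rw [hG]
    dsimp only
    rw [hg, prod_ite, prod_const, prod_const_one, mul_one]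
  have h1 : Pr (pw N K) (fun ω => ∀ p ∈ X, d ≤ (Z.filter fun z => ω (p.1, z) = p.2).card) ≤
      Pr (pw N K) (fun ω => (2 : ℝ) ^ (X.card * d) ≤ G ω) := by
    refine Pr_mono (pw_isP hK) fun ω hω => ?_
    rw [hGe]
    exact pow_le_pow_right₀ (by norm_num) (card_bound ω X Z hω)
  refine h1.trans ((markov (pw_isP hK) hG0 (by positivity)).trans ?_)
  have h2 : Ex (pw N K) G = ∏ c ∈ s, Ex (unif (Fin K)) (g c) :=
    Ex_prod (fun _ => unifK hK) s g
  have h3 : ∏ c ∈ s, Ex (unif (Fin K)) (g c) ≤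
      ∏ c ∈ s, Real.exp ((univ.filter fun b : Fin K => (c.1, b) ∈ X).card / (K : ℝ)) := by
    refine prod_le_prod (fun c _ => ?_) fun c _ => Ex_two hK X c.1
    refine Ex_nonneg (unifK hK) fun b => ?_
    rw [hg]
    dsimp only
    split_ifs <;> norm_num
  have h4 : ∏ c ∈ s, Real.exp ((univ.filter fun b : Fin K => (c.1, b) ∈ X).card / (K : ℝ)) ≤
      (2 : ℝ) ^ X.card := by
    rw [← Real.exp_sum]
    have h5 : ∑ c ∈ s, ((univ.filter fun b : Fin K => (c.1, b) ∈ X).card : ℝ) / (K : ℝ) =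
        (X.card : ℝ) * Z.card / K := by
      rw [← sum_div]
      congr 1
      rw [hs, sum_product]
      have h6 : ∀ a : Fin N, ∑ _z ∈ Z, ((univ.filter fun b : Fin K => (a, b) ∈ X).card : ℝ) =
          (Z.card : ℝ) * (univ.filter fun b : Fin K => (a, b) ∈ X).card := by
        intro a
        rw [sum_const, nsmul_eq_mul]
      rw [sum_congr rfl fun a _ => h6 a, ← mul_sum, mul_comm]
      congr 1
      have h7 : X.card = ∑ a : Fin N, (univ.filter fun b : Fin K => (a, b) ∈ X).card := by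
        have h8 : X = (univ ×ˢ univ : Finset (Fin N × Fin K)).filter fun t => t ∈ X := by
          ext t
          simp
        rw [h8, card_filter, sum_product]
        refine sum_congr rfl fun a _ => ?_
        rw [card_filter]
        simp
      rw [h7]
      push_cast
      rfl
    rw [h5]
    have h9 : (X.card : ℝ) * Z.card / K ≤ X.card * (1 / 2) := by
      rw [mul_div_assoc]
      refine mul_le_mul_of_nonneg_left ?_ (Nat.cast_nonneg _)
      rw [div_le_iff₀ hK0]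
      have h10 : 2 * Z.card ≤ K := by omega
      have h11 : (2 : ℝ) * Z.card ≤ K := by exact_mod_cast h10
      linarith
    refine (Real.exp_le_exp.2 h9).trans ?_
    rw [Real.exp_nat_mul]
    refine pow_le_pow_left₀ (Real.exp_pos _).le ?_ _
    have h12 : Real.exp (1 / 2) ^ 2 ≤ 2 ^ 2 := by
      rw [← Real.exp_nat_mul]
      have h13 := Real.exp_one_lt_d9
      have h14 : ((2 : ℕ) : ℝ) * (1 / 2) = 1 := by norm_num
      rw [h14]
      linarith
    exact (pow_le_pow_iff_left₀ (Real.exp_pos _).le (by norm_num) (by norm_num)).1 h12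
  rw [h2]
  calc (∏ c ∈ s, Ex (unif (Fin K)) (g c)) / 2 ^ (X.card * d) ≤
      (2 : ℝ) ^ X.card / 2 ^ (X.card * d) := by
        gcongr
        exact h3.trans h4
    _ = (2 / 2 ^ d : ℝ) ^ X.card := by
        rw [div_pow, ← pow_mul, mul_comm d]

private theorem sum_quarter (n : ℕ) : ∑ i ∈ range n, (1 / 4 : ℝ) ^ (i + 1) ≤ 1 / 3 := by
  have h : ∑ i ∈ range n, (1 / 4 : ℝ) ^ (i + 1) = (1 - (1 / 4 : ℝ) ^ n) / 3 := by
    induction n with
    | zero => simp
    | succ n ih =>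
      rw [sum_range_succ, ih, pow_succ]
      ring
  rw [h]
  have : (0 : ℝ) ≤ (1 / 4 : ℝ) ^ n := by positivity
  linarith

/-- the bad event for the expansion -/
private def BadX (x0 d : ℕ) (ω : Fin N × Fin N → Fin K) : Prop :=
  ∃ X : Finset (Fin N × Fin K), ∃ Z : Finset (Fin N), X.Nonempty ∧ X.card ≤ x0 ∧
    Z.card ≤ 4 * X.card ∧ ∀ p ∈ X, d ≤ (Z.filter fun z => ω (p.1, z) = p.2).card

private theorem Pr_BadX (hN : 0 < N) (hK : 0 < K) (hKN : K ≤ N) {x0 d : ℕ} (hx : 8 * x0 ≤ K)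
    (hd : 8 * N ^ 6 ≤ 2 ^ d) : Pr (pw N K) (BadX x0 d) ≤ 1 / 3 := by
  have hdR : (2 : ℝ) / 2 ^ d * N ^ 6 ≤ 1 / 4 := by
    have h1 : (8 : ℝ) * (N : ℝ) ^ 6 ≤ 2 ^ d := by exact_mod_cast hd
    rw [div_mul_eq_mul_div, div_le_iff₀ (by positivity)]
    linarith
  have h1 : Pr (pw N K) (BadX x0 d) ≤ Pr (pw N K) (fun ω => ∃ i ∈ range x0,
      ∃ j ∈ (powersetCard (i + 1) univ ×ˢ powersetCard (min (4 * (i + 1)) N) univ :
        Finset (Finset (Fin N × Fin K) × Finset (Fin N))),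
        ∀ p ∈ j.1, d ≤ (j.2.filter fun z => ω (p.1, z) = p.2).card) := by
    refine Pr_mono (pw_isP hK) fun ω hω => ?_
    obtain ⟨X, Z, hne, hX, hZ, h⟩ := hω
    have hpos := card_pos.2 hne
    have hZN : Z.card ≤ N := by
      have := card_le_univ Z
      rwa [Fintype.card_fin] at this
    obtain ⟨Z', hZZ', hZ'⟩ := exists_superset_card_eq (s := Z) (n := min (4 * X.card) N)
      (le_min hZ hZN) (by rw [Fintype.card_fin]; exact min_le_right _ _)
    refine ⟨X.card - 1, mem_range.2 (by omega), (X, Z'), ?_, ?_⟩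
    · rw [mem_product, mem_powersetCard, mem_powersetCard]
      have h2 : X.card - 1 + 1 = X.card := by omega
      rw [h2]
      exact ⟨⟨subset_univ _, rfl⟩, subset_univ _, hZ'⟩
    · intro p hp
      exact (h p hp).trans (card_le_card (filter_subset_filter _ hZZ'))
  refine h1.trans ((Pr_exists_le (pw_isP hK) _ _).trans ?_)
  refine le_trans (sum_le_sum fun i hi => ?_) (sum_quarter x0)
  rw [mem_range] at hi
  refine (Pr_exists_le_card_mul (pw_isP hK) _ _ (q := (2 / 2 ^ d : ℝ) ^ (i + 1)) ?_).trans ?_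
  · rintro ⟨X, Z⟩ hj
    rw [mem_product, mem_powersetCard, mem_powersetCard] at hj
    have hX : X.card = i + 1 := hj.1.2
    have hZ : Z.card = min (4 * (i + 1)) N := hj.2.2
    have h2 := Pr_exp (d := d) hK hx X Z (by omega) (by
      rw [hZ, hX]
      exact min_le_left _ _)
    rw [hX] at h2
    exact h2
  · rw [card_product, card_powersetCard, card_powersetCard, card_univ, card_univ,
      Fintype.card_prod, Fintype.card_fin, Fintype.card_fin]
    have h3 : (N * K).choose (i + 1) ≤ (N * N) ^ (i + 1) :=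
      (Nat.choose_le_pow _ _).trans (Nat.pow_le_pow_left (Nat.mul_le_mul_left _ hKN) _)
    have h4 : N.choose (min (4 * (i + 1)) N) ≤ N ^ (4 * (i + 1)) :=
      (Nat.choose_le_pow _ _).trans (Nat.pow_le_pow_right hN (min_le_left _ _))
    have h5 : (N * K).choose (i + 1) * N.choose (min (4 * (i + 1)) N) ≤ (N ^ 6) ^ (i + 1) := by
      refine (Nat.mul_le_mul h3 h4).trans (le_of_eq ?_)
      rw [pow_mul, ← mul_pow]
      congr 1
      ring
    have h6 : (((N * K).choose (i + 1) * N.choose (min (4 * (i + 1)) N) : ℕ) : ℝ) ≤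
        ((N : ℝ) ^ 6) ^ (i + 1) := by exact_mod_cast h5
    calc (((N * K).choose (i + 1) * N.choose (min (4 * (i + 1)) N) : ℕ) : ℝ) *
        (2 / 2 ^ d : ℝ) ^ (i + 1) ≤ ((N : ℝ) ^ 6) ^ (i + 1) * (2 / 2 ^ d : ℝ) ^ (i + 1) := by
          gcongr
      _ = (2 / 2 ^ d * (N : ℝ) ^ 6) ^ (i + 1) := by rw [← mul_pow, mul_comm]
      _ ≤ (1 / 4 : ℝ) ^ (i + 1) := pow_le_pow_left₀ (by positivity) hdR _

private theorem Pr_swap (S : (Fin N × Fin N → Fin K) → Prop) :
    Pr (pw N K) (fun ω => S (fun c => ω c.swap)) = Pr (pw N K) S := by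
  unfold Pr Ex
  refine Fintype.sum_equiv ((Equiv.prodComm (Fin N) (Fin N)).arrowCongr (Equiv.refl (Fin K)))
    _ _ fun ω => ?_
  have h1 : ((Equiv.prodComm (Fin N) (Fin N)).arrowCongr (Equiv.refl (Fin K))) ω =
      fun c => ω c.swap := by
    funext c
    rfl
  rw [h1]
  congr 1

end

theorem exists_host (N K m d x0 : ℕ) (hKN : K ≤ N) (hK : 0 < K) (hm : 4 * K * N ≤ m ^ 2)
    (hx : 8 * x0 ≤ K) (hd : 8 * N ^ 6 ≤ 2 ^ d) : ∃ W : Fin N → Fin N → Fin K,
      (∀ (w : Fin K) (A B : Finset (Fin N)), m ≤ A.card → m ≤ B.card →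
        ∃ a ∈ A, ∃ b ∈ B, W a b = w) ∧
      (∀ (X : Finset (Fin N × Fin K)) (Z : Finset (Fin N)), X.Nonempty → X.card ≤ x0 →
        Z.card ≤ 4 * X.card → ∃ p ∈ X, (Z.filter (fun z => W p.1 z = p.2)).card < d) ∧
      (∀ (X : Finset (Fin N × Fin K)) (Z : Finset (Fin N)), X.Nonempty → X.card ≤ x0 →
        Z.card ≤ 4 * X.card → ∃ p ∈ X, (Z.filter (fun z => W z p.1 = p.2)).card < d) := by
  have hN : 0 < N := lt_of_lt_of_le hK hKN
  have h1 := Pr_join_all hN hK hKN hm
  have h2 := Pr_BadX hN hK hKN hx hd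
  have h3 := Pr_swap (N := N) (K := K) (BadX x0 d)
  set E1 : (Fin N × Fin N → Fin K) → Prop := fun ω =>
    ∃ j ∈ (univ : Finset (Fin K)) ×ˢ (powersetCard m univ ×ˢ
      powersetCard m univ : Finset (Finset (Fin N) × Finset (Fin N))),
      ∀ c ∈ j.2.1 ×ˢ j.2.2, ω c ≠ j.1 with hE1
  have h4 : Pr (pw N K) (fun ω => (E1 ω ∨ BadX x0 d ω) ∨ BadX x0 d (fun c => ω c.swap)) < 1 := by
    have h5 := Pr_or_le (pw_isP (N := N) hK) (fun ω => E1 ω ∨ BadX x0 d ω)
      (fun ω => BadX x0 d (fun c => ω c.swap))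
    have h6 := Pr_or_le (pw_isP (N := N) hK) E1 (BadX x0 d)
    have h7 : Pr (pw N K) (fun ω => BadX x0 d (fun c => ω c.swap)) ≤ 1 / 3 := by
      rw [h3]
      exact h2
    have h8 : Pr (pw N K) E1 ≤ 1 / 4 := h1
    linarith
  obtain ⟨ω, hω⟩ := exists_not_of_Pr_lt_one (pw_isP hK) h4
  push Not at hω
  obtain ⟨⟨hω1, hω2⟩, hω3⟩ := hω
  refine ⟨fun a b => ω (a, b), ?_, ?_, ?_⟩
  · intro w A B hA hB
    obtain ⟨A', hA', hA'm⟩ := exists_subset_card_eq hA
    obtain ⟨B', hB', hB'm⟩ := exists_subset_card_eq hB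
    by_contra hcon
    push Not at hcon
    apply hω1
    refine ⟨(w, A', B'), ?_, ?_⟩
    · rw [mem_product, mem_product, mem_powersetCard, mem_powersetCard]
      exact ⟨mem_univ _, ⟨subset_univ _, hA'm⟩, subset_univ _, hB'm⟩
    · rintro ⟨a, b⟩ hc
      rw [mem_product] at hc
      exact hcon a (hA' hc.1) b (hB' hc.2)
  · intro X Z hne hX hZ
    by_contra hcon
    push Not at hcon
    exact hω2 ⟨X, Z, hne, hX, hZ, hcon⟩
  · intro X Z hne hX hZ
    by_contra hcon
    push Not at hcon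
    exact hω3 ⟨X, Z, hne, hX, hZ, hcon⟩

end Pool.Agent.EOF76
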