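import Mathlib

/-!
# The choice of the parameters
-/

set_option autoImplicit false

namespace Pool.Agent.EOF76

theorem sq_le_two_pow (s : ℕ) : s ^ 2 ≤ 2 * 2 ^ s := by
  induction s with
  | zero => simp
  | succ s ih =>
    have h1 : s + 1 ≤ 2 ^ s := Nat.lt_two_pow_self
    have h2 : 2 ^ (s + 1) = 2 * 2 ^ s := by rw [pow_succ, mul_comm]
    rw [h2]
    nlinarith

theorem num_d (s Q : ℕ) :
    6 * s ^ 2 + 12 * (Q + (Q + s + 8)) + 3 ≤ 2 ^ (Q + s + 8) := by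
  have h1 := sq_le_two_pow s
  have h2 : s < 2 ^ s := Nat.lt_two_pow_self
  have h3 : Q < 2 ^ Q := Nat.lt_two_pow_self
  have h4 : 2 ^ (Q + s + 8) = 256 * (2 ^ Q * 2 ^ s) := by
    rw [pow_add, pow_add]
    ring
  have h5 : 1 ≤ 2 ^ Q := Nat.one_le_two_pow
  have h6 : 1 ≤ 2 ^ s := Nat.one_le_two_pow
  rw [h4]
  generalize 2 ^ Q = x at *
  generalize 2 ^ s = y at *
  have h7 : x ≤ x * y := Nat.le_mul_of_pos_right _ (by omega)
  have h8 : y ≤ x * y := Nat.le_mul_of_pos_left _ (by omega)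
  have h9 : 1 ≤ x * y := Nat.one_le_iff_ne_zero.2 (by positivity)
  omega

/-- The inequality of the dependent random choice. -/
theorem num_drc {s n B E r A k P eb ec : ℕ} (hn : 0 < n) (hns : n ≤ 2 ^ (s ^ 2))
    (hB : B = (2 * r + 2) * s + 4) (hE : (s ^ 2 + B) * (P + 1) ≤ E * s)
    (hb : eb + (2 * r + 2) = A) (hc : ec + E = A) (hk : n * 2 ^ B ≤ 4 * k)
    (hk' : k ≤ n * 2 ^ B) :
    n * (n * 2 ^ A) ^ s + k * (k ^ P * (n * 2 ^ ec) ^ s) < k * (n * 2 ^ eb) ^ s := by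
  have h1 : (n * 2 ^ A) ^ s = (n * 2 ^ eb) ^ s * 2 ^ ((2 * r + 2) * s) := by
    rw [← hb, pow_add, ← mul_assoc, mul_pow (n * 2 ^ eb), ← pow_mul]
  have h2 : (n * 2 ^ A) ^ s = (n * 2 ^ ec) ^ s * 2 ^ (E * s) := by
    rw [← hc, pow_add, ← mul_assoc, mul_pow (n * 2 ^ ec), ← pow_mul]
  have h3 : k * k ^ P ≤ 2 ^ (E * s) := by
    calc k * k ^ P = k ^ (P + 1) := by rw [pow_succ, mul_comm]
      _ ≤ (2 ^ (s ^ 2) * 2 ^ B) ^ (P + 1) :=
        Nat.pow_le_pow_left (hk'.trans (Nat.mul_le_mul_right _ hns)) _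
      _ = 2 ^ ((s ^ 2 + B) * (P + 1)) := by rw [← pow_add, ← pow_mul]
      _ ≤ 2 ^ (E * s) := Nat.pow_le_pow_right (by norm_num) hE
  have h4 : k * (k ^ P * (n * 2 ^ ec) ^ s) ≤ (n * 2 ^ A) ^ s := by
    rw [← mul_assoc, h2, mul_comm ((n * 2 ^ ec) ^ s)]
    exact Nat.mul_le_mul_right _ h3
  have h5 : 4 * (n * (n * 2 ^ A) ^ s) ≤ k * (n * 2 ^ eb) ^ s := by
    have h6 : 4 * (4 * (n * (n * 2 ^ A) ^ s)) = (n * 2 ^ B) * (n * 2 ^ eb) ^ s := by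
      rw [h1, hB, pow_add 2 ((2 * r + 2) * s) 4]
      ring
    have h7 := Nat.mul_le_mul_right ((n * 2 ^ eb) ^ s) hk
    have h8 : 4 * k * (n * 2 ^ eb) ^ s = 4 * (k * (n * 2 ^ eb) ^ s) := by ring
    omega
  have h6 : 0 < (n * 2 ^ A) ^ s := by positivity
  have h7 : (n * 2 ^ A) ^ s ≤ n * (n * 2 ^ A) ^ s := Nat.le_mul_of_pos_left _ hn
  omega

end Pool.Agent.EOF76
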