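import Pool.Agent.EOF76.Ramsey
import Pool.Agent.EOF76.Host
import Pool.Agent.EOF76.Glue
import Pool.Agent.EOF76.Num

/-!
# Near-linear edge-ordered Ramsey numbers of forests of bounded degree
-/

set_option autoImplicit false

open Finset

namespace Pool.Agent.EOF76

/-- The statement for one number `n`, bound `N₀` for the number of vertices of the host. -/
def Uni (Δ n N₀ : ℕ) : Prop :=
  ∃ N ≤ N₀, ∃ f : Sym2 (Fin N) → ℕ, Function.Injective f ∧
    ∀ col : Sym2 (Fin N) → Bool, ∃ b : Bool,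
      ∀ (G : SimpleGraph (Fin n)) (g : Sym2 (Fin n) → ℕ), Set.InjOn g G.edgeSet →
        G.IsAcyclic → (∀ v, (G.neighborSet v).ncard ≤ Δ) →
          ∃ φ : Fin n → Fin N, Function.Injective φ ∧
            (∀ e ∈ G.edgeSet, col (Sym2.map φ e) = b) ∧
            ∀ e ∈ G.edgeSet, ∀ e' ∈ G.edgeSet,
              (g e < g e' ↔ f (Sym2.map φ e) < f (Sym2.map φ e'))

theorem main_pos (r : ℕ) {s n : ℕ} (hs : 0 < s) (hn : 0 < n) (hns : n ≤ 2 ^ (s ^ 2)) :
    Uni (2 ^ r) n
      (n * 2 ^ ((4 * ((2 ^ r + 1) * (2 * r + 7) + (2 * r + 2) + (r + 6)) + 19) * s)) := by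
  classical
  obtain ⟨P, hP⟩ : ∃ P, P = 2 ^ r := ⟨_, rfl⟩
  obtain ⟨E, hE⟩ : ∃ E, E = (P + 1) * (2 * r + 7) * s := ⟨_, rfl⟩
  obtain ⟨B, hB⟩ : ∃ B, B = (2 * r + 2) * s + 4 := ⟨_, rfl⟩
  obtain ⟨Q, hQ⟩ : ∃ Q, Q = E + B + r + 2 := ⟨_, rfl⟩
  obtain ⟨L, hL⟩ : ∃ L, L = Q + s + 8 := ⟨_, rfl⟩
  obtain ⟨A', hA'⟩ : ∃ A', A' = Q + L := ⟨_, rfl⟩
  obtain ⟨A, hA⟩ : ∃ A, A = 2 * A' := ⟨_, rfl⟩
  obtain ⟨M, hM⟩ : ∃ M, M = A' + B := ⟨_, rfl⟩
  obtain ⟨d, hd⟩ : ∃ d, d = 6 * s ^ 2 + 12 * A' + 3 := ⟨_, rfl⟩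
  obtain ⟨eb, heb⟩ : ∃ eb, eb + (2 * r + 2) = A := ⟨A - (2 * r + 2), by omega⟩
  obtain ⟨ec, hec⟩ : ∃ ec, ec + E = A := ⟨A - E, by omega⟩
  have hP1 : 1 ≤ P := by rw [hP]; exact Nat.one_le_two_pow
  have hEr : r + 2 ≤ E := by
    have h1 : 2 * (2 * r + 7) ≤ (P + 1) * (2 * r + 7) := Nat.mul_le_mul_right _ (by omega)
    have h2 : (P + 1) * (2 * r + 7) ≤ E := by
      rw [hE]
      exact Nat.le_mul_of_pos_right _ hs
    omega
  have hEs : (s ^ 2 + B) * (P + 1) ≤ E * s := by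
    have h1 : s ^ 2 + B ≤ (2 * r + 7) * s * s := by
      have h2 : (2 * r + 7) * s * s = s * s + ((2 * r + 2) * s * s + 4 * (s * s)) := by ring
      have h3 : (2 * r + 2) * s ≤ (2 * r + 2) * s * s := Nat.le_mul_of_pos_right _ hs
      have h4 : 1 ≤ s * s := Nat.one_le_iff_ne_zero.2 (by positivity)
      have h5 : s ^ 2 = s * s := by ring
      omega
    calc (s ^ 2 + B) * (P + 1) ≤ (2 * r + 7) * s * s * (P + 1) := Nat.mul_le_mul_right _ h1
      _ = E * s := by rw [hE]; ring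
  -- powers
  have hmono : ∀ x y, x ≤ y → n * 2 ^ x ≤ n * 2 ^ y := fun x y h =>
    Nat.mul_le_mul_left _ (Nat.pow_le_pow_right (by norm_num) h)
  have hdbl : ∀ x, n * 2 ^ (x + 1) = 2 * (n * 2 ^ x) := fun x => by rw [pow_succ]; ring
  have hpr : ∀ x, 2 ^ r * (n * 2 ^ x) = n * 2 ^ (x + r) := fun x => by rw [pow_add]; ring
  have hdL : d ≤ 2 ^ L := by
    have h1 := num_d s Q
    rw [hd, hA', hL]
    exact h1
  -- the products
  obtain ⟨x, hx⟩ : ∃ x, x + 1 = ec := ⟨ec - 1, by omega⟩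
  have hdm : P * (2 * d * (n * 2 ^ M)) ≤ n * 2 ^ x := by
    have h1 : 2 * d * (n * 2 ^ M) ≤ n * 2 ^ (M + L + 1) := by
      calc 2 * d * (n * 2 ^ M) ≤ 2 * 2 ^ L * (n * 2 ^ M) :=
            Nat.mul_le_mul_right _ (Nat.mul_le_mul_left _ hdL)
        _ = n * 2 ^ (M + L + 1) := by rw [pow_add, pow_add]; ring
    calc P * (2 * d * (n * 2 ^ M)) ≤ P * (n * 2 ^ (M + L + 1)) := Nat.mul_le_mul_left _ h1
      _ = n * 2 ^ (M + L + 1 + r) := by rw [hP, hpr]
      _ ≤ n * 2 ^ x := hmono _ _ (by omega)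
  have hdm' : 2 * d * (n * 2 ^ M) ≤ n * 2 ^ x :=
    (Nat.le_mul_of_pos_left _ hP1).trans hdm
  obtain ⟨W, hW1, hW2, hW3⟩ := exists_host (n * 2 ^ A) (n * 2 ^ B) (n * 2 ^ M) d (2 * n)
    (hmono _ _ (by omega)) (by positivity)
    (by
      have h1 : (n * 2 ^ M) ^ 2 = n * (n * 2 ^ (2 * M)) := by
        rw [pow_mul' 2 2 M]
        ring
      have h2 : 4 * (n * 2 ^ B) * (n * 2 ^ A) = n * (n * 2 ^ (A + B + 2)) := by
        rw [pow_add, pow_add]
        ring
      rw [h1, h2]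
      exact Nat.mul_le_mul_left _ (hmono _ _ (by omega)))
    (by
      have h1 : 8 * (2 * n) = n * 2 ^ 4 := by ring
      rw [h1]
      exact hmono _ _ (by omega))
    (by
      have h1 : n * 2 ^ A ≤ 2 ^ (s ^ 2 + A) := by
        rw [pow_add]
        exact Nat.mul_le_mul_right _ hns
      calc 8 * (n * 2 ^ A) ^ 6 ≤ 8 * (2 ^ (s ^ 2 + A)) ^ 6 :=
            Nat.mul_le_mul_left _ (Nat.pow_le_pow_left h1 _)
        _ = 2 ^ ((s ^ 2 + A) * 6 + 3) := by rw [← pow_mul, pow_add]; ring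
        _ ≤ 2 ^ d := Nat.pow_le_pow_right (by norm_num) (by rw [hd]; omega))
  have hH : Host W (n * 2 ^ M) d (2 * n) := by
    refine ⟨hW1, fun t X Z hX hXc hZ => ?_⟩
    cases t
    · obtain ⟨p, hp, h⟩ := hW2 X Z hX hXc hZ
      exact ⟨p, hp, h⟩
    · obtain ⟨p, hp, h⟩ := hW3 X Z hX hXc hZ
      exact ⟨p, hp, h⟩
  obtain ⟨f, hf, hfW⟩ := exists_order W
  refine ⟨2 * (n * 2 ^ A), ?_, f, hf, fun col => ?_⟩
  · have h1 : 2 * (n * 2 ^ A) = n * 2 ^ (A + 1) := (hdbl A).symm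
    rw [h1]
    refine hmono _ _ ?_
    have h2 : A + 1 = 4 * (E + ((2 * r + 2) * s + (r + 6))) + 2 * s + 17 := by omega
    have h3 : r + 6 ≤ (r + 6) * s := Nat.le_mul_of_pos_right _ hs
    have h4 : (4 * ((2 ^ r + 1) * (2 * r + 7) + (2 * r + 2) + (r + 6)) + 19) * s =
        4 * (E + ((2 * r + 2) * s + (r + 6) * s)) + 2 * s + 17 * s := by
      rw [hE, hP]
      ring
    rw [h2, h4]
    omega
  · obtain ⟨b, hb⟩ := ramsey_W (n := n) hH (P := P) (a := n * 2 ^ (eb + r)) (b := n * 2 ^ eb)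
      (c₀ := n * 2 ^ ec) (c₁ := n * 2 ^ x) (a₁ := n * 2 ^ (A - 1)) (t := s) le_rfl
      (by
        have h1 : 4 * n = n * 2 ^ 2 := by ring
        rw [h1]
        exact hmono _ _ (by omega))
      (by rw [hP, hpr])
      (by
        have h1 : 4 * n = n * 2 ^ 2 := by ring
        have h2 := hmono 2 (A - 1) (by omega)
        have h3 := hmono (eb + r) (A - 1) (by omega)
        have h4 := hdbl (A - 1)
        rw [show A - 1 + 1 = A by omega] at h4
        omega)
      (by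
        have h1 : P * (n * 2 ^ (eb + r)) = n * 2 ^ (A - 2) := by
          rw [hP, hpr]
          congr 2
          omega
        have h2 : P * (n * 2 ^ x) ≤ n * 2 ^ (A - 3) := by
          rw [hP, hpr]
          exact hmono _ _ (by omega)
        have h3 : n * 2 ^ x ≤ n * 2 ^ (A - 3) := hmono _ _ (by omega)
        have h4 := hdbl (A - 3)
        have h5 := hdbl (A - 2)
        rw [show A - 3 + 1 = A - 2 by omega] at h4
        rw [show A - 2 + 1 = A - 1 by omega] at h5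
        have h6 : P * (n * 2 ^ (eb + r) + 2 * d * (n * 2 ^ M) + n * 2 ^ x) =
          P * (n * 2 ^ (eb + r)) + P * (2 * d * (n * 2 ^ M)) + P * (n * 2 ^ x) := by ring
        rw [h6]
        omega)
      (by
        have h1 := hdbl x
        rw [hx] at h1
        omega) hdm'
      (by
        have h1 : n * 2 ^ x ≤ n * 2 ^ (A - 2) := hmono _ _ (by omega)
        have h2 : n * 2 ^ (eb + r) ≤ n * 2 ^ (A - 2) := hmono _ _ (by omega)
        have h3 := hdbl (A - 2)
        have h4 := hdbl (A - 1)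
        rw [show A - 2 + 1 = A - 1 by omega] at h3
        rw [show A - 1 + 1 = A by omega] at h4
        omega)
      (by
        have h1 : 4 * n = n * 2 ^ 2 := by ring
        rw [h1]
        exact hmono _ _ (by omega))
      (by
        have h1 : 4 * n = n * 2 ^ 2 := by ring
        have h2 := hmono 2 (A - 1) (by omega)
        have h4 := hdbl (A - 1)
        rw [show A - 1 + 1 = A by omega] at h4
        omega)
      (hmono _ _ (by omega))
      (fun k hk hk' => num_drc hn hns hB hEs heb hec hk hk')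
      (fun x y => col s(inl x, inr y))
    refine ⟨b, fun G g hg hG hdeg => ?_⟩
    obtain ⟨sd, φ, hφ, hcol, hord⟩ := hb G g hg hG (by rw [hP]; exact hdeg)
    set ψ : Fin n → Fin (2 * (n * 2 ^ A)) := fun c => if sd c then inr (φ c) else inl (φ c)
      with hψ
    have hedge : ∀ u v, G.Adj u v → ∃ x y, s(ψ u, ψ v) = s(inl x, inr y) ∧
        W x y = sw W (sd u) (φ u) (φ v) ∧
        col s(inl x, inr y) = sw (fun x y => col s(inl x, inr y)) (sd u) (φ u) (φ v) := by
      intro u v huv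
      have h1 := (hcol u v huv).1
      cases hu : sd u
      · rw [hu, Bool.not_false] at h1
        refine ⟨φ u, φ v, ?_, rfl, rfl⟩
        simp only [hψ, hu, h1, if_true, Bool.false_eq_true, if_false]
      · rw [hu, Bool.not_true] at h1
        refine ⟨φ v, φ u, ?_, rfl, rfl⟩
        simp only [hψ, hu, h1, if_true, Bool.false_eq_true, if_false]
        exact Sym2.eq_swap
    have hlt : ∀ e ∈ G.edgeSet, ∀ e' ∈ G.edgeSet, g e < g e' →
        f (Sym2.map ψ e) < f (Sym2.map ψ e') := by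
      intro e he e' he' hee
      induction e using Sym2.ind with
      | _ u v =>
        induction e' using Sym2.ind with
        | _ u' v' =>
          rw [SimpleGraph.mem_edgeSet] at he he'
          obtain ⟨x, y, h1, h2, -⟩ := hedge u v he
          obtain ⟨x', y', h1', h2', -⟩ := hedge u' v' he'
          rw [Sym2.map_mk, Sym2.map_mk]
          show f s(ψ u, ψ v) < f s(ψ u', ψ v')
          rw [h1, h1']
          apply hfW
          rw [h2, h2']
          exact hord u v u' v' he he' hee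
    refine ⟨ψ, ?_, ?_, ?_⟩
    · intro c c' hcc
      apply hφ
      simp only [hψ] at hcc
      simp only [Prod.mk.injEq]
      cases h1 : sd c <;> cases h2 : sd c' <;>
        simp only [h1, h2, if_true, Bool.false_eq_true, if_false] at hcc
      · exact ⟨rfl, inl_injective hcc⟩
      · exact absurd hcc (inl_ne_inr _ _)
      · exact absurd hcc.symm (inl_ne_inr _ _)
      · exact ⟨rfl, inr_injective hcc⟩
    · intro e he
      induction e using Sym2.ind with
      | _ u v =>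
        rw [SimpleGraph.mem_edgeSet] at he
        obtain ⟨x, y, h1, -, h3⟩ := hedge u v he
        rw [Sym2.map_mk]
        show col s(ψ u, ψ v) = b
        rw [h1, h3]
        exact (hcol u v he).2
    · intro e he e' he'
      refine ⟨hlt e he e' he', fun h => ?_⟩
      by_contra hcon
      rcases lt_or_eq_of_le (not_lt.1 hcon) with h1 | h1
      · exact absurd h (hlt e' he' e he h1).not_gt
      · have h2 := hg he' he h1
        rw [h2] at h
        exact lt_irrefl _ h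

theorem main (Δ : ℕ) : ∃ C : ℕ, ∀ n : ℕ, Uni Δ n (n * 2 ^ (C * (Nat.sqrt (Nat.log 2 n) + 1))) := by
  refine ⟨4 * ((2 ^ Δ + 1) * (2 * Δ + 7) + (2 * Δ + 2) + (Δ + 6)) + 19, fun n => ?_⟩
  rcases Nat.eq_zero_or_pos n with rfl | hn
  · refine ⟨0, Nat.zero_le _, fun _ => 0, ?_, fun c => ⟨true, fun G g _ _ _ => ?_⟩⟩
    · intro e
      induction e using Sym2.ind with
      | _ x y => exact x.elim0
    · refine ⟨fun x => x, fun x => x.elim0, fun e => ?_, fun e => ?_⟩
      · induction e using Sym2.ind with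
        | _ x y => exact x.elim0
      · induction e using Sym2.ind with
        | _ x y => exact x.elim0
  · have h1 : n < 2 ^ (Nat.log 2 n + 1) := Nat.lt_pow_succ_log_self (by norm_num) n
    have h2 : Nat.log 2 n < (Nat.sqrt (Nat.log 2 n) + 1) ^ 2 := by
      rw [pow_two]
      exact Nat.lt_succ_sqrt _
    have h3 : n ≤ 2 ^ ((Nat.sqrt (Nat.log 2 n) + 1) ^ 2) :=
      h1.le.trans (Nat.pow_le_pow_right (by norm_num) h2)
    obtain ⟨N, hN, f, hf, h⟩ := main_pos Δ (Nat.succ_pos _) hn h3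
    refine ⟨N, hN, f, hf, fun col => ?_⟩
    obtain ⟨b, hb⟩ := h col
    exact ⟨b, fun G g hg hG hd => hb G g hg hG fun v => (hd v).trans Nat.lt_two_pow_self.le⟩

end Pool.Agent.EOF76
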