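import Mathlib

/-!
# Rooted forests
-/

set_option autoImplicit false

open Finset

namespace Pool.Agent.EOF76

theorem exists_rooted {V : Type} (G : SimpleGraph V) (hG : G.IsAcyclic) :
    ∃ (par : V → Option V) (dep : V → ℕ),
      (∀ c p, par c = some p → G.Adj c p ∧ dep c = dep p + 1) ∧
      ∀ u v, G.Adj u v → par u = some v ∨ par v = some u := by
  classical
  set rt : V → V := fun v => (G.connectedComponentMk v).nonempty_supp.some with hrt
  have hr : ∀ v, G.Reachable (rt v) v := fun v =>
    SimpleGraph.ConnectedComponent.exact (G.connectedComponentMk v).nonempty_supp.some_mem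
  have hrt' : ∀ u v, G.Adj u v → rt u = rt v := by
    intro u v h
    have h1 : G.connectedComponentMk u = G.connectedComponentMk v :=
      SimpleGraph.ConnectedComponent.sound h.reachable
    simp only [hrt]
    rw [h1]
  have huniq : ∀ v p p', G.Adj v p → G.Adj v p' → G.dist (rt v) v = G.dist (rt v) p + 1 →
      G.dist (rt v) v = G.dist (rt v) p' + 1 → p = p' := by
    intro v p p' hp hp' hd hd'
    obtain ⟨q, hq, hql⟩ := (hr v).exists_path_of_dist
    have key : ∀ x, G.Adj v x → G.dist (rt v) v = G.dist (rt v) x + 1 → x = q.penultimate := by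
      intro x hx hdx
      obtain ⟨q', hq', hql'⟩ := ((hr v).trans hx.reachable).exists_path_of_dist
      refine hG.eq_penultimate_of_adj_end hq hx ?_
      refine hG.mem_support_of_ne_mem_support_of_adj_of_isPath hq hq' hx ?_
      intro hv
      have h1 := SimpleGraph.dist_le (q'.takeUntil v hv)
      have h2 := q'.length_takeUntil_le_length hv
      omega
    rw [key p hp hd, key p' hp' hd']
  refine ⟨fun v => if h : ∃ p, G.Adj v p ∧ G.dist (rt v) v = G.dist (rt v) p + 1 then
    some h.choose else none, fun v => G.dist (rt v) v, ?_, ?_⟩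
  · intro c p hcp
    by_cases h : ∃ p, G.Adj c p ∧ G.dist (rt c) c = G.dist (rt c) p + 1
    · simp only [h, dif_pos, Option.some.injEq] at hcp
      rw [← hcp]
      refine ⟨h.choose_spec.1, ?_⟩
      show G.dist (rt c) c = G.dist (rt h.choose) h.choose + 1
      rw [← hrt' _ _ h.choose_spec.1]
      exact h.choose_spec.2
    · simp only [h, dif_neg, not_false_eq_true, reduceCtorEq] at hcp
  · have main : ∀ u v, G.Adj u v → G.dist (rt u) u = G.dist (rt u) v + 1 →
        (if h : ∃ p, G.Adj u p ∧ G.dist (rt u) u = G.dist (rt u) p + 1 then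
          some h.choose else none) = some v := by
      intro u v huv hd
      have h : ∃ p, G.Adj u p ∧ G.dist (rt u) u = G.dist (rt u) p + 1 := ⟨v, huv, hd⟩
      simp only [h, dif_pos, Option.some.injEq]
      exact huniq u _ v h.choose_spec.1 huv h.choose_spec.2 hd
    intro u v huv
    rcases hG.dist_eq_dist_add_one_of_adj_of_reachable (rt u) huv (hr u) with h | h
    · exact Or.inl (main u v huv h)
    · right
      rw [hrt' u v huv] at h
      exact main v u huv.symm h

end Pool.Agent.EOF76
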