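import Pool.Agent.EOF76.Sets
import Pool.Agent.EOF76.Embed
import Pool.Agent.EOF76.Drc
import Pool.Agent.EOF76.Rooted

/-!
# Every colouring of the host contains all forests of bounded degree in one colour
-/

set_option autoImplicit false

open Finset

namespace Pool.Agent.EOF76

variable {N K n : ℕ} {W : Fin N → Fin N → Fin K} {m d x₀ : ℕ}

/-- The edge from `c` to its parent. -/
def pe (par : Fin n → Option (Fin n)) (c : Fin n) : Sym2 (Fin n) := s(c, (par c).getD c)

/-- The rank of the edge from `c` to its parent. -/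
def rk (par : Fin n → Option (Fin n)) (g : Sym2 (Fin n) → ℕ) (c : Fin n) : ℕ :=
  (univ.filter fun c' => par c' ≠ none ∧ g (pe par c') < g (pe par c)).card

theorem rk_lt_n (par : Fin n → Option (Fin n)) (g : Sym2 (Fin n) → ℕ) (c : Fin n) :
    rk par g c < n := by
  have h1 : (univ.filter fun c' => par c' ≠ none ∧ g (pe par c') < g (pe par c)) ⊂
      (univ : Finset (Fin n)) := by
    rw [ssubset_iff_of_subset (subset_univ _)]
    refine ⟨c, mem_univ _, fun h => ?_⟩
    exact lt_irrefl _ (mem_filter.1 h).2.2
  have h2 := card_lt_card h1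
  rw [card_univ, Fintype.card_fin] at h2
  exact h2

theorem rk_lt_rk {par : Fin n → Option (Fin n)} {g : Sym2 (Fin n) → ℕ} {c c' : Fin n}
    (hc : par c ≠ none) (h : g (pe par c) < g (pe par c')) : rk par g c < rk par g c' := by
  apply card_lt_card
  rw [ssubset_iff_of_subset]
  · exact ⟨c, mem_filter.2 ⟨mem_univ _, hc, h⟩, fun h => lt_irrefl _ (mem_filter.1 h).2.2⟩
  · intro x hx
    rw [mem_filter] at hx ⊢
    exact ⟨hx.1, hx.2.1, hx.2.2.trans h⟩

/-- The window of the edge from `c` to its parent. -/
noncomputable def wdw (par : Fin n → Option (Fin n)) (g : Sym2 (Fin n) → ℕ) (U : Finset (Fin K))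
    (hU : n ≤ U.card) (c : Fin n) : Fin K :=
  U.orderEmbOfFin rfl ⟨rk par g c, (rk_lt_n par g c).trans_le hU⟩

private theorem Ramsey_memf {α : Type} {p : α → Prop} {inst : DecidablePred p} {s : Finset α}
    {x : α} : x ∈ @Finset.filter α p inst s ↔ x ∈ s ∧ p x := Finset.mem_filter

theorem ramsey_W (hH : Host W m d x₀) {P a b c₀ c₁ a₁ t : ℕ} (hx : 2 * n ≤ x₀) (hK : 4 * n ≤ K)
    (hab : P * b ≤ a) (haN : 4 * n + a ≤ N) (h1 : P * (a + 2 * d * m + c₁) ≤ a₁)
    (h2 : c₁ + P * (2 * d * m) ≤ c₀) (h3 : 2 * d * m ≤ c₁) (h4 : 2 * d * m + a₁ + a ≤ N)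
    (h5 : 4 * n ≤ c₁) (h6 : 4 * n + a₁ ≤ N) (h7 : c₀ ≤ N)
    (h8 : ∀ k, K ≤ 4 * k → k ≤ K → n * N ^ t + k * (k ^ P * c₀ ^ t) < k * b ^ t)
    (χ : Fin N → Fin N → Bool) :
    ∃ col : Bool, ∀ (G : SimpleGraph (Fin n)) (g : Sym2 (Fin n) → ℕ), Set.InjOn g G.edgeSet →
      G.IsAcyclic → (∀ v, (G.neighborSet v).ncard ≤ P) →
      ∃ (sd : Fin n → Bool) (φ : Fin n → Fin N), Function.Injective (fun c => (sd c, φ c)) ∧
        (∀ u v, G.Adj u v → sd v = !sd u ∧ sw χ (sd u) (φ u) (φ v) = col) ∧
        ∀ u v u' v', G.Adj u v → G.Adj u' v' → g s(u, v) < g s(u', v') →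
          sw W (sd u) (φ u) (φ v) < sw W (sd u') (φ u') (φ v') := by
  classical
  -- general facts on rooted forests
  have hdeg : ∀ (G : SimpleGraph (Fin n)) (par : Fin n → Option (Fin n)) (dep : Fin n → ℕ),
      (∀ c p, par c = some p → G.Adj c p ∧ dep c = dep p + 1) →
      (∀ v, (G.neighborSet v).ncard ≤ P) → ∀ v,
      ((univ.filter fun c => par c = some v) ∪ (univ.filter fun c => c = v ∧ par v ≠ none)).card
        ≤ P := by
    intro G par dep hpar hP v
    have e1 : G.neighborSet v = ((univ.filter fun x => G.Adj v x : Finset (Fin n)) :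
        Set (Fin n)) := by
      ext x
      simp
    have e2 := hP v
    rw [e1, Set.ncard_coe_finset] at e2
    rcases hpv : par v with _ | p
    · refine le_trans (card_le_card ?_) e2
      intro c hc
      rw [mem_union, mem_filter, mem_filter] at hc
      rcases hc with hc | hc
      · exact mem_filter.2 ⟨mem_univ _, (hpar c v hc.2).1.symm⟩
      · exact absurd rfl hc.2.2
    · have e3 : (univ.filter fun c => par c = some v) ∪ {p} ⊆
          univ.filter fun x => G.Adj v x := by
        intro c hc
        rw [mem_union, mem_filter, mem_singleton] at hc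
        rcases hc with hc | rfl
        · exact mem_filter.2 ⟨mem_univ _, (hpar c v hc.2).1.symm⟩
        · exact mem_filter.2 ⟨mem_univ _, (hpar v c hpv).1⟩
      have e4 : Disjoint (univ.filter fun c => par c = some v) ({p} : Finset (Fin n)) := by
        rw [disjoint_singleton_right, mem_filter]
        intro h
        have k1 := (hpar p v h.2).2
        have k2 := (hpar v p hpv).2
        omega
      have e5 := (card_le_card e3).trans e2
      rw [card_union_of_disjoint e4, card_singleton] at e5
      refine (card_union_le _ _).trans (le_trans (Nat.add_le_add_left ?_ _) e5)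
      refine card_le_one.2 fun x hx y hy => ?_
      rw [(mem_filter.1 hx).2.1, (mem_filter.1 hy).2.1]
  -- the conclusion from sets of candidates
  have main : ∀ (G : SimpleGraph (Fin n)) (g : Sym2 (Fin n) → ℕ), Set.InjOn g G.edgeSet →
      ∀ (par : Fin n → Option (Fin n)) (dep : Fin n → ℕ),
      (∀ c p, par c = some p → G.Adj c p ∧ dep c = dep p + 1) →
      (∀ u v, G.Adj u v → par u = some v ∨ par v = some u) →
      ∀ (sd : Fin n → Bool), (∀ c p, par c = some p → sd c = !sd p) →
      ∀ (U : Finset (Fin K)) (hU : n ≤ U.card) (A : Fin n → Finset (Fin N)) (col : Bool),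
      (∀ v, 4 * n ≤ (A v).card) →
      (∀ v c, par c = some v → ∀ z ∈ A v,
        d ≤ (nbs W χ (sd v) (wdw par g U hU c) col z (A c)).card) →
      ∃ (φ : Fin n → Fin N), Function.Injective (fun c => (sd c, φ c)) ∧
        (∀ u v, G.Adj u v → sd v = !sd u ∧ sw χ (sd u) (φ u) (φ v) = col) ∧
        ∀ u v u' v', G.Adj u v → G.Adj u' v' → g s(u, v) < g s(u', v') →
          sw W (sd u) (φ u) (φ v) < sw W (sd u') (φ u') (φ v') := by
    intro G g hg par dep hpar hadj sd hsd U hU A col hA hL
    have hdep : ∀ c p, par c = some p → dep p < dep c := by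
      intro c p hcp
      have := (hpar c p hcp).2
      omega
    have hpe : ∀ c, par c ≠ none → pe par c ∈ G.edgeSet := by
      intro c hc
      obtain ⟨p, hp⟩ := Option.ne_none_iff_exists'.1 hc
      rw [pe, hp, Option.getD_some, SimpleGraph.mem_edgeSet]
      exact (hpar c p hp).1
    have hmono : ∀ c c', par c ≠ none → g (pe par c) < g (pe par c') →
        wdw par g U hU c < wdw par g U hU c' := by
      intro c c' hc hlt
      unfold wdw
      rw [OrderEmbedding.lt_iff_lt, Fin.mk_lt_mk]
      exact rk_lt_rk hc hlt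
    have hwd : ∀ c c', par c ≠ none → par c' ≠ none →
        wdw par g U hU c = wdw par g U hU c' → c = c' := by
      intro c c' hc hc' he
      have e1 : g (pe par c) = g (pe par c') := by
        rcases lt_trichotomy (g (pe par c)) (g (pe par c')) with h | h | h
        · exact absurd he (hmono c c' hc h).ne
        · exact h
        · exact absurd he (hmono c' c hc' h).ne'
      have e2 := hg (hpe c hc) (hpe c' hc') e1
      obtain ⟨p, hp⟩ := Option.ne_none_iff_exists'.1 hc
      obtain ⟨p', hp'⟩ := Option.ne_none_iff_exists'.1 hc'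
      rw [pe, pe, hp, hp', Option.getD_some, Option.getD_some, Sym2.eq_iff] at e2
      rcases e2 with ⟨e2, -⟩ | ⟨e2, e3⟩
      · exact e2
      · have k1 := hdep c p hp
        have k2 := hdep c' p' hp'
        rw [e2] at k1
        rw [e3] at k1
        omega
    obtain ⟨φ, hφ, hφ'⟩ := embed hH hdep hsd hwd (by rw [Fintype.card_fin]; exact hx)
      (by rw [Fintype.card_fin]; exact hA) hL
    have hE : ∀ u v, G.Adj u v → ∃ c, par c ≠ none ∧ pe par c = s(u, v) ∧ sd v = !sd u ∧
        sw W (sd u) (φ u) (φ v) = wdw par g U hU c ∧ sw χ (sd u) (φ u) (φ v) = col := by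
      intro u v huv
      rcases hadj u v huv with h | h
      · have k1 := hsd u v h
        obtain ⟨k2, k3⟩ := hφ' u v h
        refine ⟨u, by rw [h]; exact Option.some_ne_none _, ?_, ?_, ?_, ?_⟩
        · rw [pe, h, Option.getD_some]
        · rw [k1, Bool.not_not]
        · rw [k1, sw_not]
          exact k2
        · rw [k1, sw_not]
          exact k3
      · have k1 := hsd v u h
        obtain ⟨k2, k3⟩ := hφ' v u h
        refine ⟨v, by rw [h]; exact Option.some_ne_none _, ?_, k1, k2, k3⟩
        rw [pe, h, Option.getD_some, Sym2.eq_swap]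
    refine ⟨φ, hφ, ?_, ?_⟩
    · intro u v huv
      obtain ⟨c, -, -, k1, -, k2⟩ := hE u v huv
      exact ⟨k1, k2⟩
    · intro u v u' v' huv huv' hlt
      obtain ⟨c, hc, k1, -, k2, -⟩ := hE u v huv
      obtain ⟨c', hc', k1', -, k2', -⟩ := hE u' v' huv'
      rw [k2, k2']
      refine hmono c c' hc ?_
      rw [k1, k1']
      exact hlt
  have hsub : ∀ par : Fin n → Option (Fin n), ∀ v, (univ.filter fun c => par c = some v).card ≤
      ((univ.filter fun c => par c = some v) ∪
        (univ.filter fun c => c = v ∧ par v ≠ none)).card :=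
    fun par v => card_le_card subset_union_left
  rcases dichotomy W χ d a b with ⟨𝒲, hc, hI⟩ | ⟨s, 𝒲, X, Z, hc, hII⟩
  · refine ⟨true, fun G g hg hG hP => ?_⟩
    obtain ⟨par, dep, hpar, hadj⟩ := exists_rooted G hG
    have hdep : ∀ c p, par c = some p → dep p < dep c := by
      intro c p hcp
      have := (hpar c p hcp).2
      omega
    set sd : Fin n → Bool := fun v => decide (dep v % 2 = 1) with hsd
    have hsd' : ∀ c p, par c = some p → sd c = !sd p := by
      intro c p hcp
      have h9 := (hpar c p hcp).2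
      simp only [hsd]
      rw [← decide_not, decide_eq_decide]
      omega
    have hU : n ≤ 𝒲.card := by omega
    obtain ⟨A, hA⟩ := sets_I (W := W) (χ := χ) (d := d) (a := a) (b := b) (P := P) hdep sd
      (wdw par g 𝒲 hU) (fun v => (hsub par v).trans (hdeg G par dep hpar hP v))
      (fun c _ => hI _ (orderEmbOfFin_mem _ _ _)) hab
    obtain ⟨φ, hφ⟩ := main G g hg par dep hpar hadj sd hsd' 𝒲 hU A true (by
      intro v
      have h9 := (hA v).1
      rw [card_compl, Fintype.card_fin] at h9
      omega) (fun v => (hA v).2)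
    exact ⟨sd, φ, hφ⟩
  · refine ⟨false, fun G g hg hG hP => ?_⟩
    obtain ⟨par, dep, hpar, hadj⟩ := exists_rooted G hG
    have hdep : ∀ c p, par c = some p → dep p < dep c := by
      intro c p hcp
      have := (hpar c p hcp).2
      omega
    set sd : Fin n → Bool := fun v => decide (dep v % 2 = 1) with hsd
    have hsd' : ∀ c p, par c = some p → sd c = !sd p := by
      intro c p hcp
      have h9 := (hpar c p hcp).2
      simp only [hsd]
      rw [← decide_not, decide_eq_decide]
      omega
    obtain ⟨U, hU𝒲, hU, hT⟩ := drc (n := n) (t := t) (P := P) (c := c₀) (b := b) 𝒲 X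
      (by rw [Fintype.card_fin]; exact h7) (fun w hw => (hII w hw).2.1) (by
        rw [Fintype.card_fin]
        refine h8 𝒲.card hc ?_
        have h9 := card_le_univ 𝒲
        rwa [Fintype.card_fin] at h9)
    obtain ⟨A, hA⟩ := sets_II (W := W) (χ := χ) (d := d) (a := a) (b := b) (P := P) hH hdep hsd'
      (wdw par g U hU) (fun v => (hsub par v).trans (hdeg G par dep hpar hP v)) (s := s)
      (X := X) (Z := Z) (fun c _ => hII _ (hU𝒲 (orderEmbOfFin_mem _ _ _)))
      (c₀ := c₀) (c₁ := c₁) (a₁ := a₁) (by
        intro v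
        refine (hT (((univ.filter fun c => par c = some v) ∪
          (univ.filter fun c => c = v ∧ par v ≠ none)).image (wdw par g U hU)) ?_ ?_).trans ?_
        · intro w hw
          obtain ⟨c, -, rfl⟩ := mem_image.1 hw
          exact orderEmbOfFin_mem _ _ _
        · exact card_image_le.trans (hdeg G par dep hpar hP v)
        · refine card_le_card fun x hx => ?_
          have hx2 := Ramsey_memf.1 hx
          refine Ramsey_memf.2 ⟨mem_univ _, fun hv =>
            hx2.2 _ (mem_image_of_mem _ ?_), fun c hc => hx2.2 _ (mem_image_of_mem _ ?_)⟩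
          · exact mem_union_right _ (mem_filter.2 ⟨mem_univ _, rfl, hv⟩)
          · exact mem_union_left _ (mem_filter.2 ⟨mem_univ _, hc⟩)) h1 h2 h3 h4
    obtain ⟨φ, hφ⟩ := main G g hg par dep hpar hadj sd hsd' U hU A false (by
      intro v
      by_cases hv : sd v = s
      · have h9 := (hA v).1 hv
        omega
      · have h9 := (hA v).2.1 hv
        rw [card_compl, Fintype.card_fin] at h9
        omega) (fun v => (hA v).2.2)
    exact ⟨sd, φ, hφ⟩

end Pool.Agent.EOF76
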