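import Mathlib

/-!
# Recursion from the leaves to the roots
-/

set_option autoImplicit false

open Finset

namespace Pool.Agent.EOF76

theorem tree_rec {ι γ : Type} [Fintype ι] [Inhabited γ] (par : ι → Option ι) (dep : ι → ℕ)
    (hdep : ∀ c p, par c = some p → dep p < dep c) (Q : ι → γ → Prop) (L : ι → ι → γ → γ → Prop)
    (hstep : ∀ v (A : ι → γ), (∀ c, par c = some v → Q c (A c)) →
      ∃ B, Q v B ∧ ∀ c, par c = some v → L v c B (A c)) :
    ∃ A : ι → γ, ∀ v, Q v (A v) ∧ ∀ c, par c = some v → L v c (A v) (A c) := by
  classical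
  obtain ⟨M, hM⟩ : ∃ M, ∀ v, dep v < M := by
    refine ⟨univ.sup dep + 1, fun v => ?_⟩
    have := Finset.le_sup (f := dep) (mem_univ v)
    omega
  have key : ∀ j t, t + j = M → ∃ A : ι → γ, ∀ v, t ≤ dep v →
      Q v (A v) ∧ ∀ c, par c = some v → L v c (A v) (A c) := by
    intro j
    induction j with
    | zero =>
      intro t ht
      refine ⟨fun _ => default, fun v hv => ?_⟩
      have := hM v
      omega
    | succ j ih =>
      intro t ht
      obtain ⟨A, hA⟩ := ih (t + 1) (by omega)
      have h1 : ∀ v, ∃ B, dep v = t → Q v B ∧ ∀ c, par c = some v → L v c B (A c) := by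
        intro v
        by_cases hv : dep v = t
        · obtain ⟨B, hB⟩ := hstep v A (fun c hc => (hA c (by
            have := hdep c v hc
            omega)).1)
          exact ⟨B, fun _ => hB⟩
        · exact ⟨default, fun h => absurd h hv⟩
      choose B hB using h1
      refine ⟨fun v => if dep v = t then B v else A v, fun v hv => ?_⟩
      have h2 : ∀ c, par c = some v → ¬ dep c = t := by
        intro c hc
        have := hdep c v hc
        omega
      by_cases hvt : dep v = t
      · simp only [hvt, if_true]
        refine ⟨(hB v hvt).1, fun c hc => ?_⟩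
        rw [if_neg (h2 c hc)]
        exact (hB v hvt).2 c hc
      · simp only [hvt, if_false]
        have h3 := hA v (by omega)
        refine ⟨h3.1, fun c hc => ?_⟩
        rw [if_neg (h2 c hc)]
        exact h3.2 c hc
  obtain ⟨A, hA⟩ := key M 0 (by omega)
  exact ⟨A, fun v => hA v (Nat.zero_le _)⟩

end Pool.Agent.EOF76
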