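import Pool.Agent.EOF76.Windows
import Pool.Agent.EOF76.TreeRec

/-!
# The sets of candidates
-/

set_option autoImplicit false

open Finset

namespace Pool.Agent.EOF76

variable {N K : ℕ} {W : Fin N → Fin N → Fin K} {χ : Fin N → Fin N → Bool} {m d x₀ : ℕ}

/-- A double counting. -/
theorem card_few {s : Bool} {w : Fin K} {Y Z : Finset (Fin N)}
    (h : ∀ y ∈ Y, (nbs W χ s w true y Z).card < d) :
    (Z.filter fun z => d + 1 ≤ (nbs W χ (!s) w true z Y).card).card ≤ Y.card := by
  have h1 : ∑ z ∈ Z, (nbs W χ (!s) w true z Y).card = ∑ y ∈ Y, (nbs W χ s w true y Z).card := by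
    simp only [nbs, card_filter, sw_not]
    rw [sum_comm]
  have h2 : ∑ y ∈ Y, (nbs W χ s w true y Z).card ≤ Y.card * (d + 1) := by
    rw [← smul_eq_mul, ← sum_const]
    exact sum_le_sum fun y hy => by
      have := h y hy
      omega
  have h3 : (Z.filter fun z => d + 1 ≤ (nbs W χ (!s) w true z Y).card).card * (d + 1) ≤
      ∑ z ∈ Z, (nbs W χ (!s) w true z Y).card := by
    rw [← smul_eq_mul, ← sum_const]
    refine (sum_le_sum (f := fun _ => d + 1)
      (g := fun z => (nbs W χ (!s) w true z Y).card) fun z hz => (mem_filter.1 hz).2).trans ?_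
    exact sum_le_sum_of_subset (filter_subset _ _)
  exact Nat.le_of_mul_le_mul_right (h3.trans (h1.le.trans h2)) (Nat.succ_pos d)

variable {ι : Type} [Fintype ι] [DecidableEq ι]

theorem sets_I {par : ι → Option ι} {dep : ι → ℕ}
    (hdep : ∀ c p, par c = some p → dep p < dep c) (sd : ι → Bool) (wd : ι → Fin K) {a b P : ℕ}
    (hP : ∀ v, (univ.filter fun c => par c = some v).card ≤ P)
    (hI : ∀ c, par c ≠ none → TypeI W χ d a b (wd c)) (hab : P * b ≤ a) :
    ∃ A : ι → Finset (Fin N), ∀ v, (A v)ᶜ.card ≤ a ∧
      ∀ c, par c = some v → ∀ z ∈ A v, d ≤ (nbs W χ (sd v) (wd c) true z (A c)).card := by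
  refine tree_rec par dep hdep (fun _ B => Bᶜ.card ≤ a)
    (fun v c B C => ∀ z ∈ B, d ≤ (nbs W χ (sd v) (wd c) true z C).card) ?_
  intro v A hA
  refine ⟨univ.filter fun z => ∀ c, par c = some v →
    d ≤ (nbs W χ (sd v) (wd c) true z (A c)).card, ?_, ?_⟩
  · have h1 : (univ.filter fun z => ∀ c, par c = some v →
        d ≤ (nbs W χ (sd v) (wd c) true z (A c)).card)ᶜ ⊆
        (univ.filter fun c => par c = some v).biUnion fun c =>
          univ.filter fun z => (nbs W χ (sd v) (wd c) true z (A c)).card < d := by
      intro z hz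
      rw [mem_compl, mem_filter, not_and] at hz
      have h2 := hz (mem_univ _)
      push Not at h2
      obtain ⟨c, hc, hlt⟩ := h2
      rw [mem_biUnion]
      exact ⟨c, mem_filter.2 ⟨mem_univ _, hc⟩, mem_filter.2 ⟨mem_univ _, hlt⟩⟩
    calc _ ≤ _ := card_le_card h1
      _ ≤ ∑ c ∈ univ.filter fun c => par c = some v,
          (univ.filter fun z => (nbs W χ (sd v) (wd c) true z (A c)).card < d).card :=
        card_biUnion_le
      _ ≤ ∑ _c ∈ univ.filter fun c => par c = some v, b := by
        refine sum_le_sum fun c hc => ?_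
        have hc' := (mem_filter.1 hc).2
        exact hI c (by rw [hc']; exact Option.some_ne_none _) (sd v) (A c) (hA c hc')
      _ = (univ.filter fun c => par c = some v).card * b := by rw [sum_const, smul_eq_mul]
      _ ≤ P * b := Nat.mul_le_mul_right _ (hP v)
      _ ≤ a := hab
  · intro c hc z hz
    exact (mem_filter.1 hz).2 c hc

theorem sets_II (hH : Host W m d x₀) {par : ι → Option ι} {dep : ι → ℕ}
    (hdep : ∀ c p, par c = some p → dep p < dep c) {sd : ι → Bool}
    (hsd : ∀ c p, par c = some p → sd c = !sd p) (wd : ι → Fin K) {a b P : ℕ}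
    (hP : ∀ v, (univ.filter fun c => par c = some v).card ≤ P) {s : Bool}
    {X Z : Fin K → Finset (Fin N)}
    (hII : ∀ c, par c ≠ none → TypeII W χ d a b s (wd c) (X (wd c)) (Z (wd c))) {c₀ c₁ a₁ : ℕ}
    (hint : ∀ v, c₀ ≤ (univ.filter fun x => (par v ≠ none → x ∈ X (wd v)) ∧
      ∀ c, par c = some v → x ∈ X (wd c)).card)
    (h1 : P * (a + 2 * d * m + c₁) ≤ a₁) (h2 : c₁ + P * (2 * d * m) ≤ c₀) (h3 : 2 * d * m ≤ c₁)
    (h4 : 2 * d * m + a₁ + a ≤ N) :
    ∃ A : ι → Finset (Fin N), ∀ v, (sd v = s → c₁ ≤ (A v).card) ∧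
      (sd v ≠ s → (A v)ᶜ.card ≤ a₁) ∧
      ∀ c, par c = some v → ∀ z ∈ A v, d ≤ (nbs W χ (sd v) (wd c) false z (A c)).card := by
  set D : ι → Finset (Fin N) := fun v => univ.filter fun x => (par v ≠ none → x ∈ X (wd v)) ∧
      ∀ c, par c = some v → x ∈ X (wd c) with hD
  obtain ⟨A, hA⟩ := tree_rec (ι := ι) (γ := Finset (Fin N)) par dep hdep
    (fun v B => (sd v = s → B ⊆ D v ∧ c₁ ≤ B.card) ∧ (sd v ≠ s → Bᶜ.card ≤ a₁))
    (fun v c B C => ∀ z ∈ B, d ≤ (nbs W χ (sd v) (wd c) false z C).card) (by
    intro v A hA
    by_cases hv : sd v = s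
    · -- the dominating side
      have hch : ∀ c, par c = some v → (A c)ᶜ.card ≤ a₁ := by
        intro c hc
        refine (hA c hc).2 ?_
        rw [hsd c v hc, hv]
        cases s <;> simp
      set R : ι → Finset (Fin N) := fun c =>
        univ.filter fun z => (nba W s (wd c) z (A c ∩ Z (wd c))).card < 2 * d with hR
      have hRc : ∀ c, par c = some v → (R c).card ≤ 2 * d * m := by
        intro c hc
        refine hH.many s (wd c) (2 * d) _ ?_
        have hZ := (hII c (by rw [hc]; exact Option.some_ne_none _)).1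
        have h5 : (A c ∩ Z (wd c))ᶜ.card ≤ a₁ + a := by
          rw [compl_inter]
          refine (card_union_le _ _).trans ?_
          have := hch c hc
          omega
        rw [card_compl, Fintype.card_fin] at h5
        omega
      refine ⟨(D v) \ ((univ.filter fun c => par c = some v).biUnion R), ⟨fun _ => ⟨sdiff_subset,
        ?_⟩, fun h => absurd hv h⟩, ?_⟩
      · have h5 : ((univ.filter fun c => par c = some v).biUnion R).card ≤ P * (2 * d * m) := by
          refine card_biUnion_le.trans ?_
          refine (sum_le_sum (g := fun _ => 2 * d * m) fun c hc =>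
            hRc c (mem_filter.1 hc).2).trans ?_
          rw [sum_const, smul_eq_mul]
          exact Nat.mul_le_mul_right _ (hP v)
        have h6 := le_card_sdiff ((univ.filter fun c => par c = some v).biUnion R) (D v)
        have h7 := hint v
        have h8 : c₀ ≤ (D v).card := h7
        omega
      · intro c hc z hz
        rw [mem_sdiff, mem_biUnion] at hz
        have h5 : ¬ z ∈ R c := fun h => hz.2 ⟨c, mem_filter.2 ⟨mem_univ _, hc⟩, h⟩
        rw [hR, mem_filter, not_and] at h5
        have h6 := not_lt.1 (h5 (mem_univ _))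
        have h7 : z ∈ X (wd c) := (mem_filter.1 hz.1).2.2 c hc
        have h8 := (hII c (by rw [hc]; exact Option.some_ne_none _)).2.2 z h7
        have h9 : (nbs W χ s (wd c) true z (A c ∩ Z (wd c))).card ≤
            (nbs W χ s (wd c) true z (Z (wd c))).card :=
          card_le_card (nbs_mono inter_subset_right)
        have h10 : (nbs W χ s (wd c) false z (A c ∩ Z (wd c))).card ≤
            (nbs W χ s (wd c) false z (A c)).card :=
          card_le_card (nbs_mono inter_subset_left)
        have h11 := card_nba (W := W) (χ := χ) s (wd c) z (A c ∩ Z (wd c)) true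
        rw [Bool.not_true] at h11
        rw [hv]
        omega
    · -- the other side
      have hv' : sd v = !s := by
        cases hs : sd v <;> cases s <;> simp_all
      have hch : ∀ c, par c = some v → A c ⊆ D c ∧ c₁ ≤ (A c).card := by
        intro c hc
        refine (hA c hc).1 ?_
        rw [hsd c v hc, hv', Bool.not_not]
      set R : ι → Finset (Fin N) := fun c =>
        univ.filter fun z => (nbs W χ (!s) (wd c) false z (A c)).card < d with hR
      have hRc : ∀ c, par c = some v → (R c).card ≤ a + 2 * d * m + c₁ := by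
        intro c hc
        obtain ⟨Y, hY, hYc⟩ := exists_subset_card_eq (hch c hc).2
        have hne : par c ≠ none := by rw [hc]; exact Option.some_ne_none _
        have h5 : R c ⊆ ((Z (wd c))ᶜ ∪ univ.filter fun z => (nba W (!s) (wd c) z Y).card < 2 * d) ∪
            (Z (wd c)).filter fun z => d + 1 ≤ (nbs W χ (!s) (wd c) true z Y).card := by
          intro z hz
          rw [hR, mem_filter] at hz
          rw [mem_union, mem_union, mem_compl, mem_filter, mem_filter]
          by_contra hcon
          rw [not_or, not_or, not_and, not_and, not_not, not_lt, not_le] at hcon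
          have h6 := hcon.1.2 (mem_univ _)
          have h7 := hcon.2 hcon.1.1
          have h8 := card_nba (W := W) (χ := χ) (!s) (wd c) z Y true
          rw [Bool.not_true] at h8
          have h9 : (nbs W χ (!s) (wd c) false z Y).card ≤
            (nbs W χ (!s) (wd c) false z (A c)).card := card_le_card (nbs_mono hY)
          have h10 := hz.2
          omega
        have h6 := (hII c hne).1
        have h7 := hH.many (!s) (wd c) (2 * d) Y (by rw [hYc]; exact h3)
        have h8 : ((Z (wd c)).filter fun z =>
            d + 1 ≤ (nbs W χ (!s) (wd c) true z Y).card).card ≤ Y.card := by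
          refine card_few fun y hy => ?_
          have h9 := (hch c hc).1 (hY hy)
          exact (hII c hne).2.2 y ((mem_filter.1 h9).2.1 hne)
        have h9 := (card_le_card h5).trans ((card_union_le _ _).trans
          (Nat.add_le_add_right (card_union_le _ _) _))
        omega
      refine ⟨((univ.filter fun c => par c = some v).biUnion R)ᶜ, ⟨fun h => absurd h hv,
        fun _ => ?_⟩, ?_⟩
      · rw [compl_compl]
        refine card_biUnion_le.trans ?_
        refine (sum_le_sum (g := fun _ => a + 2 * d * m + c₁) fun c hc =>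
            hRc c (mem_filter.1 hc).2).trans ?_
        rw [sum_const, smul_eq_mul]
        exact (Nat.mul_le_mul_right _ (hP v)).trans h1
      · intro c hc z hz
        rw [mem_compl, mem_biUnion] at hz
        have h5 : ¬ z ∈ R c := fun h => hz ⟨c, mem_filter.2 ⟨mem_univ _, hc⟩, h⟩
        rw [hR, mem_filter, not_and] at h5
        have h6 := not_lt.1 (h5 (mem_univ _))
        rw [hv']
        exact h6)
  exact ⟨A, fun v => ⟨fun h => ((hA v).1.1 h).2, (hA v).1.2, (hA v).2⟩⟩

end Pool.Agent.EOF76
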