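import Mathlib

/-!
# Windows of a bipartite host

The host has two sides (`Bool`), each a copy of `Fin N`; `W x y : Fin K` is the window of the edge
from the vertex `x` of the side `false` to the vertex `y` of the side `true`, `χ x y` its colour.
-/

set_option autoImplicit false

open Finset

namespace Pool.Agent.EOF76

variable {N K : ℕ} {γ : Type}

/-- The value of the edge from the vertex `z` of the side `s` to the vertex `y` of the other
side. -/
def sw (F : Fin N → Fin N → γ) (s : Bool) (z y : Fin N) : γ := if s then F y z else F z y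

theorem sw_not (F : Fin N → Fin N → γ) (s : Bool) (z y : Fin N) : sw F (!s) z y = sw F s y z := by
  cases s <;> rfl

/-- The neighbours of `z` in `Z` in the window `w`. -/
def nba (W : Fin N → Fin N → Fin K) (s : Bool) (w : Fin K) (z : Fin N) (Z : Finset (Fin N)) :
    Finset (Fin N) := Z.filter fun y => sw W s z y = w

/-- The neighbours of `z` in `Z` in the window `w`, of colour `b`. -/
def nbs (W : Fin N → Fin N → Fin K) (χ : Fin N → Fin N → Bool) (s : Bool) (w : Fin K) (b : Bool)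
    (z : Fin N) (Z : Finset (Fin N)) : Finset (Fin N) :=
  Z.filter fun y => sw W s z y = w ∧ sw χ s z y = b

/-- The two properties of the host. -/
structure Host (W : Fin N → Fin N → Fin K) (m d x₀ : ℕ) : Prop where
  hole : ∀ (w : Fin K) (A B : Finset (Fin N)), m ≤ A.card → m ≤ B.card →
    ∃ a ∈ A, ∃ b ∈ B, W a b = w
  small : ∀ (s : Bool) (X : Finset (Fin N × Fin K)) (Z : Finset (Fin N)), X.Nonempty →
    X.card ≤ x₀ → Z.card ≤ 4 * X.card → ∃ p ∈ X, (nba W s p.2 p.1 Z).card < d

variable {W : Fin N → Fin N → Fin K} {χ : Fin N → Fin N → Bool} {m d x₀ : ℕ}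

theorem card_nba (s : Bool) (w : Fin K) (z : Fin N) (Z : Finset (Fin N)) (b : Bool) :
    (nba W s w z Z).card = (nbs W χ s w b z Z).card + (nbs W χ s w (!b) z Z).card := by
  have h1 : nba W s w z Z = nbs W χ s w b z Z ∪ nbs W χ s w (!b) z Z := by
    ext y
    simp only [nba, nbs, mem_filter, mem_union]
    cases sw χ s z y <;> cases b <;> simp
  rw [h1, card_union_of_disjoint]
  rw [disjoint_left]
  intro y hy hy'
  simp only [nbs, mem_filter] at hy hy'
  rw [hy.2.2] at hy'
  cases b <;> simp at hy'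

theorem nbs_mono {s : Bool} {w : Fin K} {b : Bool} {z : Fin N} {Z Z' : Finset (Fin N)}
    (h : Z ⊆ Z') : nbs W χ s w b z Z ⊆ nbs W χ s w b z Z' :=
  filter_subset_filter _ h

theorem nba_mono {s : Bool} {w : Fin K} {z : Fin N} {Z Z' : Finset (Fin N)}
    (h : Z ⊆ Z') : nba W s w z Z ⊆ nba W s w z Z' :=
  filter_subset_filter _ h

theorem Host.hole_sw (h : Host W m d x₀) (s : Bool) (w : Fin K) (A B : Finset (Fin N))
    (hA : m ≤ A.card) (hB : m ≤ B.card) : ∃ a ∈ A, ∃ b ∈ B, sw W s a b = w := by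
  cases s
  · exact h.hole w A B hA hB
  · obtain ⟨a, ha, b, hb, hab⟩ := h.hole w B A hB hA
    exact ⟨b, hb, a, ha, hab⟩

/-- Almost all vertices have many neighbours in a large set. -/
theorem Host.many (h : Host W m d x₀) (s : Bool) (w : Fin K) (k : ℕ) (Z : Finset (Fin N))
    (hZ : k * m ≤ Z.card) : (univ.filter fun x => (nba W s w x Z).card < k).card ≤ k * m := by
  induction k generalizing Z with
  | zero =>
    rw [zero_mul, Nat.le_zero, card_eq_zero, filter_eq_empty_iff]
    intro x _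
    omega
  | succ k ih =>
    rw [Nat.succ_mul] at hZ
    obtain ⟨Z₁, hZ₁, hc₁⟩ := exists_subset_card_eq (show m ≤ Z.card by omega)
    have hc₂ : k * m ≤ (Z \ Z₁).card := by
      rw [card_sdiff_of_subset hZ₁]
      omega
    have h1 : (univ.filter fun x => (nba W s w x Z).card < k + 1) ⊆
        (univ.filter fun x => nba W s w x Z₁ = ∅) ∪
          (univ.filter fun x => (nba W s w x (Z \ Z₁)).card < k) := by
      intro x hx
      rw [mem_union, mem_filter, mem_filter]
      rw [mem_filter] at hx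
      by_contra hcon
      rw [not_or, not_and, not_and] at hcon
      have h2 := hcon.1 (mem_univ _)
      have h3 := hcon.2 (mem_univ _)
      have h4 : 0 < (nba W s w x Z₁).card := card_pos.2 (nonempty_iff_ne_empty.2 h2)
      have h5 : (nba W s w x Z₁).card + (nba W s w x (Z \ Z₁)).card ≤ (nba W s w x Z).card := by
        rw [← card_union_of_disjoint]
        · exact card_le_card (union_subset (nba_mono hZ₁) (nba_mono sdiff_subset))
        · rw [disjoint_left]
          intro y hy hy'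
          exact (mem_sdiff.1 (mem_filter.1 hy').1).2 (mem_filter.1 hy).1
      omega
    have h2 : (univ.filter fun x => nba W s w x Z₁ = ∅).card ≤ m := by
      by_contra hcon
      obtain ⟨a, ha, y, hy, hay⟩ := h.hole_sw s w _ Z₁ (not_le.1 hcon).le hc₁.ge
      rw [mem_filter] at ha
      have h3 : y ∈ nba W s w a Z₁ := mem_filter.2 ⟨hy, hay⟩
      rw [ha.2] at h3
      exact absurd h3 (notMem_empty _)
    have h3 := ih (Z \ Z₁) hc₂
    have h4 := (card_le_card h1).trans (card_union_le _ _)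
    rw [Nat.succ_mul]
    omega

/-- Windows in which the colour `true` is contracting. -/
def TypeI (W : Fin N → Fin N → Fin K) (χ : Fin N → Fin N → Bool) (d a b : ℕ) (w : Fin K) : Prop :=
  ∀ (s : Bool) (Z : Finset (Fin N)), Zᶜ.card ≤ a →
    (univ.filter fun x => (nbs W χ s w true x Z).card < d).card ≤ b

/-- Windows with a large set `X` on the side `s` which is almost without edges of colour `true` to
almost all vertices of the other side. -/
def TypeII (W : Fin N → Fin N → Fin K) (χ : Fin N → Fin N → Bool) (d a b : ℕ) (s : Bool)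
    (w : Fin K) (X Z : Finset (Fin N)) : Prop :=
  Zᶜ.card ≤ a ∧ b ≤ X.card ∧ ∀ x ∈ X, (nbs W χ s w true x Z).card < d

theorem dichotomy (W : Fin N → Fin N → Fin K) (χ : Fin N → Fin N → Bool) (d a b : ℕ) :
    (∃ 𝒲 : Finset (Fin K), K ≤ 4 * 𝒲.card ∧ ∀ w ∈ 𝒲, TypeI W χ d a b w) ∨
    ∃ (s : Bool) (𝒲 : Finset (Fin K)) (X Z : Fin K → Finset (Fin N)), K ≤ 4 * 𝒲.card ∧
      ∀ w ∈ 𝒲, TypeII W χ d a b s w (X w) (Z w) := by
  classical
  have h1 : ∀ w, TypeI W χ d a b w ∨ (∃ X Z, TypeII W χ d a b false w X Z) ∨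
      ∃ X Z, TypeII W χ d a b true w X Z := by
    intro w
    by_cases hI : TypeI W χ d a b w
    · exact Or.inl hI
    · right
      unfold TypeI at hI
      push Not at hI
      obtain ⟨s, Z, hZ, hb⟩ := hI
      have h2 : TypeII W χ d a b s w
          (univ.filter fun x => (nbs W χ s w true x Z).card < d) Z :=
        ⟨hZ, hb.le, fun x hx => (mem_filter.1 hx).2⟩
      cases s
      · exact Or.inl ⟨_, _, h2⟩
      · exact Or.inr ⟨_, _, h2⟩
  set 𝒲₁ : Finset (Fin K) := univ.filter fun w => TypeI W χ d a b w with h𝒲₁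
  set 𝒲₂ : Finset (Fin K) := univ.filter fun w => ∃ X Z, TypeII W χ d a b false w X Z with h𝒲₂
  set 𝒲₃ : Finset (Fin K) := univ.filter fun w => ∃ X Z, TypeII W χ d a b true w X Z with h𝒲₃
  have h2 : (univ : Finset (Fin K)) ⊆ 𝒲₁ ∪ (𝒲₂ ∪ 𝒲₃) := by
    intro w _
    rw [mem_union, mem_union, mem_filter, mem_filter, mem_filter]
    rcases h1 w with h | h | h
    · exact Or.inl ⟨mem_univ _, h⟩
    · exact Or.inr (Or.inl ⟨mem_univ _, h⟩)
    · exact Or.inr (Or.inr ⟨mem_univ _, h⟩)
  have h3 : K ≤ 𝒲₁.card + (𝒲₂.card + 𝒲₃.card) := by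
    have h4 := card_le_card h2
    rw [card_univ, Fintype.card_fin] at h4
    have h5 := card_union_le 𝒲₁ (𝒲₂ ∪ 𝒲₃)
    have h6 := card_union_le 𝒲₂ 𝒲₃
    omega
  have h4 : ∀ s, ∀ 𝒲 : Finset (Fin K), (∀ w ∈ 𝒲, ∃ X Z, TypeII W χ d a b s w X Z) →
      ∃ X Z : Fin K → Finset (Fin N), ∀ w ∈ 𝒲, TypeII W χ d a b s w (X w) (Z w) := by
    intro s 𝒲 h
    have h5 : ∀ w, ∃ p : Finset (Fin N) × Finset (Fin N), w ∈ 𝒲 →
        TypeII W χ d a b s w p.1 p.2 := by
      intro w
      by_cases hw : w ∈ 𝒲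
      · obtain ⟨X, Z, hXZ⟩ := h w hw
        exact ⟨(X, Z), fun _ => hXZ⟩
      · exact ⟨(∅, ∅), fun h => absurd h hw⟩
    choose p hp using h5
    exact ⟨fun w => (p w).1, fun w => (p w).2, hp⟩
  by_cases hK1 : K ≤ 4 * 𝒲₁.card
  · exact Or.inl ⟨𝒲₁, hK1, fun w hw => (mem_filter.1 hw).2⟩
  · right
    by_cases hK2 : K ≤ 4 * 𝒲₂.card
    · obtain ⟨X, Z, h⟩ := h4 false 𝒲₂ (fun w hw => (mem_filter.1 hw).2)
      exact ⟨false, 𝒲₂, X, Z, hK2, h⟩
    · obtain ⟨X, Z, h⟩ := h4 true 𝒲₃ (fun w hw => (mem_filter.1 hw).2)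
      exact ⟨true, 𝒲₃, X, Z, by omega, h⟩

end Pool.Agent.EOF76
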